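import Mathlib

/-!
# Bounded search operators and `fun_prop` support for `Primrec` and `Computable`
-/

namespace DegB

/-- bounded existential quantifier -/
def bex (n : ℕ) (p : ℕ → Bool) : Bool := Nat.rec false (fun k acc => acc || p k) n
/-- bounded universal quantifier -/
def ball (n : ℕ) (p : ℕ → Bool) : Bool := Nat.rec true (fun k acc => acc && p k) n
/-- bounded counting -/
def bcnt (n : ℕ) (p : ℕ → Bool) : ℕ := Nat.rec 0 (fun k acc => acc + (p k).toNat) n
/-- first `some` value below a bound -/
def ffind (n : ℕ) (p : ℕ → Option ℕ) : Option ℕ := Nat.rec none (fun k acc => acc.or (p k)) n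
/-- the prefix of length `n` of a 0-1 sequence -/
def pre (A : ℕ → Bool) (n : ℕ) : List Bool := Nat.rec [] (fun k acc => acc ++ [A k]) n
/-- last defined value below a bound -/
def blast (n : ℕ) (p : ℕ → Option Bool) : Bool := Nat.rec false (fun k acc => (p k).getD acc) n

@[simp] theorem bex_zero (p : ℕ → Bool) : bex 0 p = false := rfl
@[simp] theorem bex_succ (n : ℕ) (p : ℕ → Bool) : bex (n+1) p = (bex n p || p n) := rfl
@[simp] theorem ball_zero (p : ℕ → Bool) : ball 0 p = true := rfl
@[simp] theorem ball_succ (n : ℕ) (p : ℕ → Bool) : ball (n+1) p = (ball n p && p n) := rfl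
@[simp] theorem bcnt_zero (p : ℕ → Bool) : bcnt 0 p = 0 := rfl
theorem bcnt_succ (n : ℕ) (p : ℕ → Bool) : bcnt (n+1) p = bcnt n p + (p n).toNat := rfl
@[simp] theorem ffind_zero (p : ℕ → Option ℕ) : ffind 0 p = none := rfl
theorem ffind_succ (n : ℕ) (p : ℕ → Option ℕ) : ffind (n+1) p = (ffind n p).or (p n) := rfl
@[simp] theorem pre_zero (A : ℕ → Bool) : pre A 0 = [] := rfl
theorem pre_succ (A : ℕ → Bool) (n : ℕ) : pre A (n+1) = pre A n ++ [A n] := rfl
@[simp] theorem blast_zero (p : ℕ → Option Bool) : blast 0 p = false := rfl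
theorem blast_succ (n : ℕ) (p : ℕ → Option Bool) : blast (n+1) p = (p n).getD (blast n p) := rfl

theorem bex_iff {n : ℕ} {p : ℕ → Bool} : bex n p = true ↔ ∃ k < n, p k = true := by
  induction n with
  | zero => simp
  | succ n ih =>
    rw [bex_succ, Bool.or_eq_true, ih]
    constructor
    · rintro (⟨k, hk, h⟩ | h)
      · exact ⟨k, by omega, h⟩
      · exact ⟨n, by omega, h⟩
    · rintro ⟨k, hk, h⟩
      rcases Nat.lt_succ_iff_lt_or_eq.1 hk with h' | h'
      · exact Or.inl ⟨k, h', h⟩
      · exact Or.inr (h' ▸ h)

theorem ball_iff {n : ℕ} {p : ℕ → Bool} : ball n p = true ↔ ∀ k < n, p k = true := by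
  induction n with
  | zero => simp
  | succ n ih =>
    rw [ball_succ, Bool.and_eq_true, ih]
    constructor
    · rintro ⟨h1, h2⟩ k hk
      rcases Nat.lt_succ_iff_lt_or_eq.1 hk with h' | h'
      · exact h1 k h'
      · exact h' ▸ h2
    · intro h
      exact ⟨fun k hk => h k (by omega), h n (by omega)⟩

theorem bex_congr {n : ℕ} {p q : ℕ → Bool} (h : ∀ k < n, p k = q k) : bex n p = bex n q := by
  induction n with
  | zero => rfl
  | succ n ih => rw [bex_succ, bex_succ, ih (fun k hk => h k (by omega)), h n (by omega)]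

theorem ball_congr {n : ℕ} {p q : ℕ → Bool} (h : ∀ k < n, p k = q k) : ball n p = ball n q := by
  induction n with
  | zero => rfl
  | succ n ih => rw [ball_succ, ball_succ, ih (fun k hk => h k (by omega)), h n (by omega)]

theorem bcnt_congr {n : ℕ} {p q : ℕ → Bool} (h : ∀ k < n, p k = q k) : bcnt n p = bcnt n q := by
  induction n with
  | zero => rfl
  | succ n ih => rw [bcnt_succ, bcnt_succ, ih (fun k hk => h k (by omega)), h n (by omega)]

theorem ffind_congr {n : ℕ} {p q : ℕ → Option ℕ} (h : ∀ k < n, p k = q k) :
    ffind n p = ffind n q := by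
  induction n with
  | zero => rfl
  | succ n ih => rw [ffind_succ, ffind_succ, ih (fun k hk => h k (by omega)), h n (by omega)]

theorem pre_congr {n : ℕ} {A B : ℕ → Bool} (h : ∀ k < n, A k = B k) : pre A n = pre B n := by
  induction n with
  | zero => rfl
  | succ n ih => rw [pre_succ, pre_succ, ih (fun k hk => h k (by omega)), h n (by omega)]

theorem ffind_eq_none {n : ℕ} {p : ℕ → Option ℕ} : ffind n p = none ↔ ∀ k < n, p k = none := by
  induction n with
  | zero => simp
  | succ n ih =>
    rw [ffind_succ, Option.or_eq_none_iff, ih]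
    constructor
    · rintro ⟨h1, h2⟩ k hk
      rcases Nat.lt_succ_iff_lt_or_eq.1 hk with h' | h'
      · exact h1 k h'
      · exact h' ▸ h2
    · intro h
      exact ⟨fun k hk => h k (by omega), h n (by omega)⟩

theorem ffind_eq_some {n : ℕ} {p : ℕ → Option ℕ} {v : ℕ} :
    ffind n p = some v ↔ ∃ k < n, p k = some v ∧ ∀ k' < k, p k' = none := by
  induction n with
  | zero => simp
  | succ n ih =>
    rw [ffind_succ, Option.or_eq_some_iff, ih]
    constructor
    · rintro (⟨k, hk, h⟩ | ⟨h1, h2⟩)
      · exact ⟨k, by omega, h⟩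
      · exact ⟨n, by omega, h2, fun k' hk' => ffind_eq_none.1 h1 k' hk'⟩
    · rintro ⟨k, hk, h, h'⟩
      rcases Nat.lt_succ_iff_lt_or_eq.1 hk with hk' | hk'
      · exact Or.inl ⟨k, hk', h, h'⟩
      · subst hk'
        exact Or.inr ⟨ffind_eq_none.2 h', h⟩

theorem ffind_mono {n n' : ℕ} {p : ℕ → Option ℕ} {v : ℕ} (hn : n ≤ n') (h : ffind n p = some v) :
    ffind n' p = some v := by
  obtain ⟨k, hk, h1, h2⟩ := ffind_eq_some.1 h
  exact ffind_eq_some.2 ⟨k, by omega, h1, h2⟩

theorem ffind_exists {n : ℕ} {p : ℕ → Option ℕ} {k : ℕ} (hk : k < n) (h : (p k).isSome) :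
    ∃ v k', k' ≤ k ∧ p k' = some v ∧ ffind n p = some v := by
  classical
  have hex : ∃ k, (p k).isSome := ⟨k, h⟩
  obtain ⟨v, hv⟩ := Option.isSome_iff_exists.1 (Nat.find_spec hex)
  refine ⟨v, Nat.find hex, Nat.find_min' hex h, hv, ffind_eq_some.2 ⟨Nat.find hex, ?_, hv, ?_⟩⟩
  · exact lt_of_le_of_lt (Nat.find_min' hex h) hk
  · intro k' hk'
    have := Nat.find_min hex hk'
    simpa using this

@[simp] theorem pre_length (A : ℕ → Bool) (n : ℕ) : (pre A n).length = n := by
  induction n with
  | zero => rfl
  | succ n ih => rw [pre_succ, List.length_append, ih]; rfl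

theorem pre_getElem? (A : ℕ → Bool) (n k : ℕ) : (pre A n)[k]? = if k < n then some (A k) else none := by
  induction n with
  | zero => simp
  | succ n ih =>
    rw [pre_succ]
    by_cases hk : k < n
    · rw [List.getElem?_append_left (by simpa using hk), ih, if_pos hk, if_pos (by omega)]
    · rw [List.getElem?_append_right (by simpa using Nat.le_of_not_lt hk)]
      by_cases hk' : k = n
      · subst hk'; simp
      · rw [if_neg (by omega)]
        simp only [pre_length]
        rw [List.getElem?_eq_none]
        simp; omega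

theorem pre_eq_iff {A B : ℕ → Bool} {n : ℕ} : pre A n = pre B n ↔ ∀ k < n, A k = B k := by
  constructor
  · intro h k hk
    have h1 := pre_getElem? A n k
    have h2 := pre_getElem? B n k
    rw [h] at h1
    rw [h1, if_pos hk, if_pos hk] at h2
    exact Option.some.inj h2
  · exact pre_congr

theorem pre_prefix (A : ℕ → Bool) {m n : ℕ} (h : m ≤ n) : pre A m <+: pre A n := by
  induction n with
  | zero => rw [Nat.le_zero.1 h]
  | succ n ih =>
    rcases Nat.lt_or_ge m (n+1) with h' | h'
    · exact (ih (by omega)).trans ⟨[A n], rfl⟩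
    · have : m = n + 1 := by omega
      subst this; exact List.prefix_rfl

theorem pre_take (A : ℕ → Bool) {m n : ℕ} (h : m ≤ n) : (pre A n).take m = pre A m := by
  have := (pre_prefix A h)
  rw [List.prefix_iff_eq_take] at this
  rw [pre_length] at this
  exact this.symm

theorem prefix_pre {A : ℕ → Bool} {n : ℕ} {σ : List Bool} (h : σ <+: pre A n) :
    σ = pre A σ.length ∧ σ.length ≤ n := by
  have hl := h.length_le
  rw [pre_length] at hl
  refine ⟨?_, hl⟩
  rw [List.prefix_iff_eq_take] at h
  rw [pre_take A hl] at h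
  exact h

attribute [fun_prop] Primrec
attribute [fun_prop] Computable

section prim
variable {α β γ σ : Type*} [Primcodable α] [Primcodable β] [Primcodable γ] [Primcodable σ]

@[fun_prop] theorem pr_id : Primrec (fun a : α => a) := Primrec.id
@[fun_prop] theorem pr_const (x : σ) : Primrec (fun _ : α => x) := Primrec.const x
@[fun_prop] theorem pr_comp {f : β → σ} {g : α → β} (hf : Primrec f) (hg : Primrec g) :
    Primrec fun a => f (g a) := hf.comp hg
@[fun_prop] theorem pr_fst {f : α → β × γ} (hf : Primrec f) : Primrec fun a => (f a).1 :=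
  Primrec.fst.comp hf
@[fun_prop] theorem pr_snd {f : α → β × γ} (hf : Primrec f) : Primrec fun a => (f a).2 :=
  Primrec.snd.comp hf
@[fun_prop] theorem pr_mk {f : α → β} {g : α → γ} (hf : Primrec f) (hg : Primrec g) :
    Primrec fun a => (f a, g a) := hf.pair hg
@[fun_prop] theorem pr_add {f g : α → ℕ} (hf : Primrec f) (hg : Primrec g) :
    Primrec fun a => f a + g a := Primrec.nat_add.comp hf hg
@[fun_prop] theorem pr_sub {f g : α → ℕ} (hf : Primrec f) (hg : Primrec g) :
    Primrec fun a => f a - g a := Primrec.nat_sub.comp hf hg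
@[fun_prop] theorem pr_mul {f g : α → ℕ} (hf : Primrec f) (hg : Primrec g) :
    Primrec fun a => f a * g a := Primrec.nat_mul.comp hf hg
@[fun_prop] theorem pr_mod {f g : α → ℕ} (hf : Primrec f) (hg : Primrec g) :
    Primrec fun a => f a % g a := Primrec.nat_mod.comp hf hg
@[fun_prop] theorem pr_div {f g : α → ℕ} (hf : Primrec f) (hg : Primrec g) :
    Primrec fun a => f a / g a := Primrec.nat_div.comp hf hg
@[fun_prop] theorem pr_and {f g : α → Bool} (hf : Primrec f) (hg : Primrec g) :
    Primrec fun a => (f a && g a) := Primrec.and.comp hf hg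
@[fun_prop] theorem pr_or {f g : α → Bool} (hf : Primrec f) (hg : Primrec g) :
    Primrec fun a => (f a || g a) := Primrec.or.comp hf hg
@[fun_prop] theorem pr_not {f : α → Bool} (hf : Primrec f) : Primrec fun a => (! f a) :=
  Primrec.not.comp hf
@[fun_prop] theorem pr_unpair {f : α → ℕ} (hf : Primrec f) :
    Primrec fun a => Nat.unpair (f a) := Primrec.unpair.comp hf
@[fun_prop] theorem pr_pair {f g : α → ℕ} (hf : Primrec f) (hg : Primrec g) :
    Primrec fun a => Nat.pair (f a) (g a) := Primrec₂.natPair.comp hf hg
@[fun_prop] theorem pr_toNat {f : α → Bool} (hf : Primrec f) : Primrec fun a => (f a).toNat :=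
  (Primrec.dom_bool Bool.toNat).comp hf
@[fun_prop] theorem pr_dle {f g : α → ℕ} (hf : Primrec f) (hg : Primrec g) :
    Primrec fun a => decide (f a ≤ g a) := Primrec.nat_le.decide.comp hf hg
@[fun_prop] theorem pr_dlt {f g : α → ℕ} (hf : Primrec f) (hg : Primrec g) :
    Primrec fun a => decide (f a < g a) := Primrec.nat_lt.decide.comp hf hg
@[fun_prop] theorem pr_deq {f g : α → ℕ} (hf : Primrec f) (hg : Primrec g) :
    Primrec fun a => decide (f a = g a) := (Primrec.eq (α := ℕ)).decide.comp hf hg
@[fun_prop] theorem pr_deqo {f g : α → Option ℕ} (hf : Primrec f) (hg : Primrec g) :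
    Primrec fun a => decide (f a = g a) := (Primrec.eq (α := Option ℕ)).decide.comp hf hg
@[fun_prop] theorem pr_deql {f g : α → List Bool} (hf : Primrec f) (hg : Primrec g) :
    Primrec fun a => decide (f a = g a) := (Primrec.eq (α := List Bool)).decide.comp hf hg
@[fun_prop] theorem pr_some {f : α → β} (hf : Primrec f) : Primrec fun a => some (f a) :=
  Primrec.option_some.comp hf
@[fun_prop] theorem pr_getD {f : α → Option β} {g : α → β} (hf : Primrec f) (hg : Primrec g) :
    Primrec fun a => (f a).getD (g a) := Primrec.option_getD.comp hf hg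
@[fun_prop] theorem pr_isSome {f : α → Option β} (hf : Primrec f) :
    Primrec fun a => (f a).isSome := Primrec.option_isSome.comp hf
@[fun_prop] theorem pr_or' {f g : α → Option ℕ} (hf : Primrec f) (hg : Primrec g) :
    Primrec fun a => (f a).or (g a) := by
  have h : Primrec₂ ((· <|> ·) : Option ℕ → Option ℕ → Option ℕ) := Primrec.option_orElse
  exact (h.comp hf hg).of_eq fun a => by cases f a <;> rfl
@[fun_prop] theorem pr_cond {c : α → Bool} {f g : α → σ} (hc : Primrec c) (hf : Primrec f)
    (hg : Primrec g) : Primrec fun a => (bif c a then f a else g a) := Primrec.cond hc hf hg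
@[fun_prop] theorem pr_lgetD {f : α → List β} {g : α → ℕ} {d : β} (hf : Primrec f)
    (hg : Primrec g) : Primrec fun a => (f a).getD (g a) d := (Primrec.list_getD d).comp hf hg
@[fun_prop] theorem pr_lget {f : α → List β} {g : α → ℕ} (hf : Primrec f)
    (hg : Primrec g) : Primrec fun a => (f a)[g a]? := Primrec.list_getElem?.comp hf hg
@[fun_prop] theorem pr_llen {f : α → List β} (hf : Primrec f) : Primrec fun a => (f a).length :=
  Primrec.list_length.comp hf
@[fun_prop] theorem pr_lapp {f g : α → List β} (hf : Primrec f) (hg : Primrec g) :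
    Primrec fun a => f a ++ g a := Primrec.list_append.comp hf hg
@[fun_prop] theorem pr_lcons {f : α → β} {g : α → List β} (hf : Primrec f) (hg : Primrec g) :
    Primrec fun a => f a :: g a := Primrec.list_cons.comp hf hg
@[fun_prop] theorem pr_ltake {f : α → List β} {g : α → ℕ} (hf : Primrec f) (hg : Primrec g) :
    Primrec fun a => (f a).take (g a) := Primrec.list_take.comp hg hf
@[fun_prop] theorem pr_encode {f : α → β} (hf : Primrec f) :
    Primrec fun a => Encodable.encode (f a) := Primrec.encode.comp hf

@[fun_prop] theorem pr_bex {n : α → ℕ} {p : α → ℕ → Bool} (hn : Primrec n)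
    (hp : Primrec fun q : α × ℕ => p q.1 q.2) : Primrec fun a => bex (n a) (p a) := by
  refine Primrec.nat_rec' (f := n) (g := fun _ => false) (h := fun a q => q.2 || p a q.1) hn
    (by fun_prop) ?_
  show Primrec fun q : α × ℕ × Bool => (q.2.2 || p q.1 q.2.1)
  exact pr_or (by fun_prop) (hp.comp (f := fun q : α × ℕ => p q.1 q.2)
    (g := fun q : α × ℕ × Bool => (q.1, q.2.1)) (by fun_prop))
@[fun_prop] theorem pr_ball {n : α → ℕ} {p : α → ℕ → Bool} (hn : Primrec n)
    (hp : Primrec fun q : α × ℕ => p q.1 q.2) : Primrec fun a => ball (n a) (p a) := by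
  refine Primrec.nat_rec' (f := n) (g := fun _ => true) (h := fun a q => q.2 && p a q.1) hn
    (by fun_prop) ?_
  show Primrec fun q : α × ℕ × Bool => (q.2.2 && p q.1 q.2.1)
  exact pr_and (by fun_prop) (hp.comp (f := fun q : α × ℕ => p q.1 q.2)
    (g := fun q : α × ℕ × Bool => (q.1, q.2.1)) (by fun_prop))
@[fun_prop] theorem pr_bcnt {n : α → ℕ} {p : α → ℕ → Bool} (hn : Primrec n)
    (hp : Primrec fun q : α × ℕ => p q.1 q.2) : Primrec fun a => bcnt (n a) (p a) := by
  refine Primrec.nat_rec' (f := n) (g := fun _ => 0) (h := fun a q => q.2 + (p a q.1).toNat) hn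
    (by fun_prop) ?_
  show Primrec fun q : α × ℕ × ℕ => (q.2.2 + (p q.1 q.2.1).toNat)
  exact pr_add (by fun_prop) (pr_toNat (hp.comp (f := fun q : α × ℕ => p q.1 q.2)
    (g := fun q : α × ℕ × ℕ => (q.1, q.2.1)) (by fun_prop)))
@[fun_prop] theorem pr_ffind {n : α → ℕ} {p : α → ℕ → Option ℕ} (hn : Primrec n)
    (hp : Primrec fun q : α × ℕ => p q.1 q.2) : Primrec fun a => ffind (n a) (p a) := by
  refine Primrec.nat_rec' (f := n) (g := fun _ => none) (h := fun a q => q.2.or (p a q.1)) hn
    (by fun_prop) ?_
  show Primrec fun q : α × ℕ × Option ℕ => (q.2.2.or (p q.1 q.2.1))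
  exact pr_or' (by fun_prop) (hp.comp (f := fun q : α × ℕ => p q.1 q.2)
    (g := fun q : α × ℕ × Option ℕ => (q.1, q.2.1)) (by fun_prop))
@[fun_prop] theorem pr_pre {n : α → ℕ} {p : α → ℕ → Bool} (hn : Primrec n)
    (hp : Primrec fun q : α × ℕ => p q.1 q.2) : Primrec fun a => pre (p a) (n a) := by
  refine Primrec.nat_rec' (f := n) (g := fun _ => []) (h := fun a q => q.2 ++ [p a q.1]) hn
    (by fun_prop) ?_
  show Primrec fun q : α × ℕ × List Bool => (q.2.2 ++ [p q.1 q.2.1])
  exact pr_lapp (by fun_prop) (pr_lcons (hp.comp (f := fun q : α × ℕ => p q.1 q.2)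
    (g := fun q : α × ℕ × List Bool => (q.1, q.2.1)) (by fun_prop)) (by fun_prop))
@[fun_prop] theorem pr_blast {n : α → ℕ} {p : α → ℕ → Option Bool} (hn : Primrec n)
    (hp : Primrec fun q : α × ℕ => p q.1 q.2) : Primrec fun a => blast (n a) (p a) := by
  refine Primrec.nat_rec' (f := n) (g := fun _ => false) (h := fun a q => (p a q.1).getD q.2) hn
    (by fun_prop) ?_
  show Primrec fun q : α × ℕ × Bool => ((p q.1 q.2.1).getD q.2.2)
  exact pr_getD (hp.comp (f := fun q : α × ℕ => p q.1 q.2)
    (g := fun q : α × ℕ × Bool => (q.1, q.2.1)) (by fun_prop)) (by fun_prop)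
@[fun_prop] theorem pr_obind {f : α → Option β} {g : α → β → Option γ} (hf : Primrec f)
    (hg : Primrec fun q : α × β => g q.1 q.2) : Primrec fun a => (f a).bind (g a) :=
  Primrec.option_bind hf hg
@[fun_prop] theorem pr_omap {f : α → Option β} {g : α → β → γ} (hf : Primrec f)
    (hg : Primrec fun q : α × β => g q.1 q.2) : Primrec fun a => (f a).map (g a) :=
  Primrec.option_map hf hg
end prim

section comp
variable {α β γ σ : Type*} [Primcodable α] [Primcodable β] [Primcodable γ] [Primcodable σ]

@[fun_prop] theorem co_id : Computable (fun a : α => a) := Computable.id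
@[fun_prop] theorem co_const (x : σ) : Computable (fun _ : α => x) := Computable.const x
@[fun_prop] theorem co_comp {f : β → σ} {g : α → β} (hf : Computable f) (hg : Computable g) :
    Computable fun a => f (g a) := hf.comp hg
@[fun_prop] theorem co_fst {f : α → β × γ} (hf : Computable f) : Computable fun a => (f a).1 :=
  Computable.fst.comp hf
@[fun_prop] theorem co_snd {f : α → β × γ} (hf : Computable f) : Computable fun a => (f a).2 :=
  Computable.snd.comp hf
@[fun_prop] theorem co_mk {f : α → β} {g : α → γ} (hf : Computable f) (hg : Computable g) :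
    Computable fun a => (f a, g a) := hf.pair hg
@[fun_prop] theorem co_add {f g : α → ℕ} (hf : Computable f) (hg : Computable g) :
    Computable fun a => f a + g a := Primrec.nat_add.to_comp.comp hf hg
@[fun_prop] theorem co_sub {f g : α → ℕ} (hf : Computable f) (hg : Computable g) :
    Computable fun a => f a - g a := Primrec.nat_sub.to_comp.comp hf hg
@[fun_prop] theorem co_mul {f g : α → ℕ} (hf : Computable f) (hg : Computable g) :
    Computable fun a => f a * g a := Primrec.nat_mul.to_comp.comp hf hg
@[fun_prop] theorem co_mod {f g : α → ℕ} (hf : Computable f) (hg : Computable g) :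
    Computable fun a => f a % g a := Primrec.nat_mod.to_comp.comp hf hg
@[fun_prop] theorem co_div {f g : α → ℕ} (hf : Computable f) (hg : Computable g) :
    Computable fun a => f a / g a := Primrec.nat_div.to_comp.comp hf hg
@[fun_prop] theorem co_and {f g : α → Bool} (hf : Computable f) (hg : Computable g) :
    Computable fun a => (f a && g a) := Primrec.and.to_comp.comp hf hg
@[fun_prop] theorem co_or {f g : α → Bool} (hf : Computable f) (hg : Computable g) :
    Computable fun a => (f a || g a) := Primrec.or.to_comp.comp hf hg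
@[fun_prop] theorem co_not {f : α → Bool} (hf : Computable f) : Computable fun a => (! f a) :=
  Primrec.not.to_comp.comp hf
@[fun_prop] theorem co_unpair {f : α → ℕ} (hf : Computable f) :
    Computable fun a => Nat.unpair (f a) := Primrec.unpair.to_comp.comp hf
@[fun_prop] theorem co_pair {f g : α → ℕ} (hf : Computable f) (hg : Computable g) :
    Computable fun a => Nat.pair (f a) (g a) := Primrec₂.natPair.to_comp.comp hf hg
@[fun_prop] theorem co_toNat {f : α → Bool} (hf : Computable f) : Computable fun a => (f a).toNat :=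
  (Primrec.dom_bool Bool.toNat).to_comp.comp hf
@[fun_prop] theorem co_dle {f g : α → ℕ} (hf : Computable f) (hg : Computable g) :
    Computable fun a => decide (f a ≤ g a) := Primrec.nat_le.decide.to_comp.comp hf hg
@[fun_prop] theorem co_dlt {f g : α → ℕ} (hf : Computable f) (hg : Computable g) :
    Computable fun a => decide (f a < g a) := Primrec.nat_lt.decide.to_comp.comp hf hg
@[fun_prop] theorem co_deq {f g : α → ℕ} (hf : Computable f) (hg : Computable g) :
    Computable fun a => decide (f a = g a) := (Primrec.eq (α := ℕ)).decide.to_comp.comp hf hg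
@[fun_prop] theorem co_deqo {f g : α → Option ℕ} (hf : Computable f) (hg : Computable g) :
    Computable fun a => decide (f a = g a) :=
  (Primrec.eq (α := Option ℕ)).decide.to_comp.comp hf hg
@[fun_prop] theorem co_deql {f g : α → List Bool} (hf : Computable f) (hg : Computable g) :
    Computable fun a => decide (f a = g a) :=
  (Primrec.eq (α := List Bool)).decide.to_comp.comp hf hg
@[fun_prop] theorem co_some {f : α → β} (hf : Computable f) : Computable fun a => some (f a) :=
  Primrec.option_some.to_comp.comp hf
@[fun_prop] theorem co_getD {f : α → Option β} {g : α → β} (hf : Computable f)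
    (hg : Computable g) : Computable fun a => (f a).getD (g a) :=
  Primrec.option_getD.to_comp.comp hf hg
@[fun_prop] theorem co_isSome {f : α → Option β} (hf : Computable f) :
    Computable fun a => (f a).isSome := Primrec.option_isSome.to_comp.comp hf
@[fun_prop] theorem co_or' {f g : α → Option ℕ} (hf : Computable f) (hg : Computable g) :
    Computable fun a => (f a).or (g a) := by
  have h : Primrec₂ ((· <|> ·) : Option ℕ → Option ℕ → Option ℕ) := Primrec.option_orElse
  exact (h.to_comp.comp hf hg).of_eq fun a => by cases f a <;> rfl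
@[fun_prop] theorem co_cond {c : α → Bool} {f g : α → σ} (hc : Computable c) (hf : Computable f)
    (hg : Computable g) : Computable fun a => (bif c a then f a else g a) :=
  Computable.cond hc hf hg
@[fun_prop] theorem co_lgetD {f : α → List β} {g : α → ℕ} {d : β} (hf : Computable f)
    (hg : Computable g) : Computable fun a => (f a).getD (g a) d :=
  (Primrec.list_getD d).to_comp.comp hf hg
@[fun_prop] theorem co_lget {f : α → List β} {g : α → ℕ} (hf : Computable f)
    (hg : Computable g) : Computable fun a => (f a)[g a]? :=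
  Primrec.list_getElem?.to_comp.comp hf hg
@[fun_prop] theorem co_llen {f : α → List β} (hf : Computable f) :
    Computable fun a => (f a).length := Primrec.list_length.to_comp.comp hf
@[fun_prop] theorem co_lapp {f g : α → List β} (hf : Computable f) (hg : Computable g) :
    Computable fun a => f a ++ g a := Primrec.list_append.to_comp.comp hf hg
@[fun_prop] theorem co_lcons {f : α → β} {g : α → List β} (hf : Computable f)
    (hg : Computable g) : Computable fun a => f a :: g a := Primrec.list_cons.to_comp.comp hf hg
@[fun_prop] theorem co_ltake {f : α → List β} {g : α → ℕ} (hf : Computable f)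
    (hg : Computable g) : Computable fun a => (f a).take (g a) :=
  Primrec.list_take.to_comp.comp hg hf
@[fun_prop] theorem co_encode {f : α → β} (hf : Computable f) :
    Computable fun a => Encodable.encode (f a) := Primrec.encode.to_comp.comp hf
@[fun_prop] theorem co_obind {f : α → Option β} {g : α → β → Option γ} (hf : Computable f)
    (hg : Computable fun q : α × β => g q.1 q.2) : Computable fun a => (f a).bind (g a) :=
  Computable.option_bind hf hg
@[fun_prop] theorem co_omap {f : α → Option β} {g : α → β → γ} (hf : Computable f)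
    (hg : Computable fun q : α × β => g q.1 q.2) : Computable fun a => (f a).map (g a) :=
  Computable.option_map hf hg

@[fun_prop] theorem co_bex {n : α → ℕ} {p : α → ℕ → Bool} (hn : Computable n)
    (hp : Computable fun q : α × ℕ => p q.1 q.2) : Computable fun a => bex (n a) (p a) := by
  refine Computable.nat_rec (f := n) (g := fun _ => false) (h := fun a q => q.2 || p a q.1) hn
    (by fun_prop) ?_
  show Computable fun q : α × ℕ × Bool => (q.2.2 || p q.1 q.2.1)
  exact co_or (by fun_prop) (hp.comp (f := fun q : α × ℕ => p q.1 q.2)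
    (g := fun q : α × ℕ × Bool => (q.1, q.2.1)) (by fun_prop))
@[fun_prop] theorem co_ball {n : α → ℕ} {p : α → ℕ → Bool} (hn : Computable n)
    (hp : Computable fun q : α × ℕ => p q.1 q.2) : Computable fun a => ball (n a) (p a) := by
  refine Computable.nat_rec (f := n) (g := fun _ => true) (h := fun a q => q.2 && p a q.1) hn
    (by fun_prop) ?_
  show Computable fun q : α × ℕ × Bool => (q.2.2 && p q.1 q.2.1)
  exact co_and (by fun_prop) (hp.comp (f := fun q : α × ℕ => p q.1 q.2)
    (g := fun q : α × ℕ × Bool => (q.1, q.2.1)) (by fun_prop))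
@[fun_prop] theorem co_ffind {n : α → ℕ} {p : α → ℕ → Option ℕ} (hn : Computable n)
    (hp : Computable fun q : α × ℕ => p q.1 q.2) : Computable fun a => ffind (n a) (p a) := by
  refine Computable.nat_rec (f := n) (g := fun _ => none) (h := fun a q => q.2.or (p a q.1)) hn
    (by fun_prop) ?_
  show Computable fun q : α × ℕ × Option ℕ => (q.2.2.or (p q.1 q.2.1))
  exact co_or' (by fun_prop) (hp.comp (f := fun q : α × ℕ => p q.1 q.2)
    (g := fun q : α × ℕ × Option ℕ => (q.1, q.2.1)) (by fun_prop))
@[fun_prop] theorem co_pre {n : α → ℕ} {p : α → ℕ → Bool} (hn : Computable n)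
    (hp : Computable fun q : α × ℕ => p q.1 q.2) : Computable fun a => pre (p a) (n a) := by
  refine Computable.nat_rec (f := n) (g := fun _ => []) (h := fun a q => q.2 ++ [p a q.1]) hn
    (by fun_prop) ?_
  show Computable fun q : α × ℕ × List Bool => (q.2.2 ++ [p q.1 q.2.1])
  exact co_lapp (by fun_prop) (co_lcons (hp.comp (f := fun q : α × ℕ => p q.1 q.2)
    (g := fun q : α × ℕ × List Bool => (q.1, q.2.1)) (by fun_prop)) (by fun_prop))
end comp

end DegB
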