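import Pool.Agent.Lib_helper53.Deg.Pieces

/-!
# Degrees of `n`-c.e. sets
-/

namespace DegB

open Classical in
/-- The characteristic function of a set of natural numbers, as a (total) partial function. -/
noncomputable def charFn (A : Set ℕ) : ℕ →. ℕ := fun x => Part.some (if x ∈ A then 1 else 0)

/-- `A` is `n`-c.e.: there is a computable `g` with `g x 0 = 0`, with limit `A(x)`, and with at
most `n` changes for each `x`. -/
def IsNCE (n : ℕ) (A : Set ℕ) : Prop :=
  ∃ g : ℕ → ℕ → Bool, Computable₂ g ∧ (∀ x, g x 0 = false) ∧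
    (∀ x, ∃ s₀, ∀ s ≥ s₀, (g x s = true ↔ x ∈ A)) ∧
    ∀ x, {s | g x s ≠ g x (s + 1)}.encard ≤ n

/-- The Turing degree of a set of natural numbers. -/
noncomputable def degSet (A : Set ℕ) : TuringDegree :=
  toAntisymmetrization TuringReducible (charFn A)

/-- `DN n` is the set of `n`-c.e. Turing degrees. -/
def DN (n : ℕ) : Set TuringDegree := {d | ∃ A : Set ℕ, IsNCE n A ∧ degSet A = d}

open Classical in
/-- boolean version of a set -/
noncomputable def toB (A : Set ℕ) (x : ℕ) : Bool := decide (x ∈ A)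
/-- the set of a boolean function -/
def toS (A : ℕ → Bool) : Set ℕ := {x | A x = true}

theorem toB_toS (A : ℕ → Bool) : toB (toS A) = A := by
  funext x
  unfold toB toS
  cases h : A x <;> simp [h]

theorem charFn_eq (A : Set ℕ) : charFn A = chi (toB A) := by
  funext x
  unfold charFn chi toB
  by_cases h : x ∈ A <;> simp [h]

theorem isNCE_iff {n : ℕ} {A : Set ℕ} : IsNCE n A ↔ NCE n (toB A) := by
  constructor
  · rintro ⟨g, h1, h2, h3, h4⟩
    refine ⟨g, h1, h2, fun x => ?_, h4⟩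
    obtain ⟨s0, hs0⟩ := h3 x
    refine ⟨s0, fun s hs => ?_⟩
    have := hs0 s hs
    unfold toB
    cases hg : g x s
    · rw [hg] at this; simp at this; simp [this]
    · rw [hg] at this; simp at this; simp [this]
  · rintro ⟨g, h1, h2, h3, h4⟩
    refine ⟨g, h1, h2, fun x => ?_, h4⟩
    obtain ⟨s0, hs0⟩ := h3 x
    refine ⟨s0, fun s hs => ?_⟩
    rw [hs0 s hs]
    unfold toB
    simp

theorem degSet_le {A B : Set ℕ} : degSet A ≤ degSet B ↔ TR (toB A) (toB B) := by
  unfold TR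
  rw [← charFn_eq, ← charFn_eq]
  exact Iff.rfl

theorem mem_DN {n : ℕ} {d : TuringDegree} : d ∈ DN n ↔ ∃ A : ℕ → Bool, NCE n A ∧ degSet (toS A) = d := by
  constructor
  · rintro ⟨A, h1, rfl⟩
    refine ⟨toB A, isNCE_iff.1 h1, ?_⟩
    congr 1
    ext x
    simp [toS, toB]
  · rintro ⟨A, h1, rfl⟩
    exact ⟨toS A, isNCE_iff.2 (by rw [toB_toS]; exact h1), rfl⟩

theorem degS_le {A B : ℕ → Bool} : degSet (toS A) ≤ degSet (toS B) ↔ TR A B := by
  rw [degSet_le, toB_toS, toB_toS]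

theorem DN_mono {n n' : ℕ} (h : n ≤ n') : DN n ⊆ DN n' := by
  intro d hd
  obtain ⟨A, h1, h2⟩ := mem_DN.1 hd
  exact mem_DN.2 ⟨A, h1.mono h, h2⟩

/-- The interval theorem for degrees: below the degree of the master set there is no gap. -/
theorem interval_degrees (m n : ℕ) {b c : TuringDegree} (hb : b ∈ DN n) (hc : c ∈ DN n)
    (hbM : b ≤ degSet (toS (MSl m 1))) (hbc : b < c) :
    ∃ Z : Finset ℕ ↪o TuringDegree, (∀ S, Z S ∈ DN n) ∧ Z ∅ = b ∧ ∀ S, Z S < c := by
  obtain ⟨B, hB, rfl⟩ := mem_DN.1 hb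
  obtain ⟨C, hC, rfl⟩ := mem_DN.1 hc
  have h1 : TR B C := degS_le.1 hbc.le
  have h2 : ¬ TR C B := fun h => not_le_of_gt hbc (degS_le.2 h)
  obtain ⟨Z, hZ1, hZ2, hZ3, hZ4, hZ5, hZ6⟩ := interval_sets m hB (degS_le.1 hbM) hC h1 h2
  have hle : ∀ S T, degSet (toS (Z S)) ≤ degSet (toS (Z T)) ↔ S ≤ T := fun S T => by
    rw [degS_le]; exact hZ5 S T
  refine ⟨OrderEmbedding.ofMapLEIff (fun S => degSet (toS (Z S))) hle, ?_, ?_, ?_⟩
  · intro S
    exact mem_DN.2 ⟨Z S, hZ1 S, rfl⟩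
  · exact le_antisymm (degS_le.2 hZ6) (degS_le.2 (hZ3 ∅))
  · intro S
    exact lt_of_le_not_ge (degS_le.2 (hZ2 S)) (fun h => hZ4 S (degS_le.1 h))

/-- finite partial orders embed into the open interval -/
theorem interval_posets (m n : ℕ) {b c : TuringDegree} (hb : b ∈ DN n) (hc : c ∈ DN n)
    (hbM : b ≤ degSet (toS (MSl m 1))) (hbc : b < c) (P : Type) [PartialOrder P] [Finite P] :
    ∃ f : P ↪o TuringDegree, ∀ p, f p ∈ DN n ∧ b < f p ∧ f p < c := by
  classical
  obtain ⟨Z, hZ1, hZ2, hZ3⟩ := interval_degrees m n hb hc hbM hbc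
  haveI := Fintype.ofFinite P
  let e : P ≃ Fin (Fintype.card P) := Fintype.equivFin P
  let S : P → Finset ℕ := fun p => (Finset.univ.filter (fun q => q ≤ p)).image (fun q => (e q : ℕ))
  have hmem : ∀ p q, (e q : ℕ) ∈ S p ↔ q ≤ p := by
    intro p q
    simp only [S, Finset.mem_image, Finset.mem_filter, Finset.mem_univ, true_and]
    constructor
    · rintro ⟨r, h1, h2⟩
      have : r = q := e.injective (Fin.ext h2)
      rwa [← this]
    · intro h
      exact ⟨q, h, rfl⟩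
  have hS : ∀ p q, S p ≤ S q ↔ p ≤ q := by
    intro p q
    constructor
    · intro h
      exact (hmem q p).1 (h ((hmem p p).2 le_rfl))
    · intro h x hx
      simp only [S, Finset.mem_image, Finset.mem_filter, Finset.mem_univ, true_and] at hx ⊢
      obtain ⟨r, h1, h2⟩ := hx
      exact ⟨r, h1.trans h, h2⟩
  refine ⟨OrderEmbedding.ofMapLEIff (fun p => Z (S p)) (fun p q => by
    rw [Z.le_iff_le]; exact hS p q), fun p => ⟨hZ1 _, ?_, hZ3 _⟩⟩
  show b < Z (S p)
  rw [← hZ2, Z.lt_iff_lt]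
  refine lt_of_le_of_ne (Finset.empty_subset _) ?_
  intro h
  have := (hmem p p).2 le_rfl
  rw [← h] at this
  simp at this

end DegB
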