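import Pool.Agent.Lib_helper53.Deg.NCE

/-!
# The priority engine: definitions, primitive recursiveness, locality
-/

namespace DegB

open Nat.Partrec (Code)

/-- `t` is a possible start of requirement `j` -/
def legit (a : ℕ → ℕ) (j t : ℕ) : Bool :=
  decide (j ≤ t) && (decide (t = j) || decide (a (t-1) < j))
/-- no requirement of higher priority acted in `[t,s)` -/
def alive (a : ℕ → ℕ) (j t s : ℕ) : Bool :=
  ball s (fun t' => decide (t' < t) || decide (j ≤ a t'))
/-- number of actions of `j` between `t` and `s` before the first injury -/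
def cnt (a : ℕ → ℕ) (j t s : ℕ) : ℕ :=
  bcnt s (fun t' => decide (t ≤ t') && (decide (a t' = j) && alive a j t t'))
/-- the master set at stage `s` -/
def M (a : ℕ → ℕ) (s x : ℕ) : Bool :=
  legit a x.unpair.1 x.unpair.2 && (decide (x.unpair.2 < s) &&
    decide (cnt a x.unpair.1 x.unpair.2 s % 2 = 1))
/-- column of an element -/
def colm (x : ℕ) : ℕ :=
  bif decide (x.unpair.1.unpair.1 = 0) then 0 else x.unpair.1.unpair.2.unpair.1
/-- selection of columns: `0` even columns, `1` all columns, `i+2` all columns but `i` -/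
def sel (k c : ℕ) : Bool :=
  bif decide (k = 0) then decide (c % 2 = 0) else (decide (k = 1) || !decide (c + 2 = k))
/-- selected part of the master set -/
def MS (a : ℕ → ℕ) (s k x : ℕ) : Bool :=
  M a s x && (decide (x.unpair.1.unpair.1 ≤ 1) && sel k (colm x))

/-- Cooper strategy -/
def wantR (a : ℕ → ℕ) (s j x : ℕ) : Bool :=
  bex (s+1) fun u =>
    ball s (fun t' => !decide (a t' = j) || decide (t' ≤ u)) &&
    (decide (U j.unpair.2.unpair.2.unpair.1 x (pre (fun z => Xap j.unpair.2.unpair.1 s z) u) =
      some (MS a s 0 x).toNat) &&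
    ball u (fun z => decide (U j.unpair.2.unpair.2.unpair.2 z (pre (fun v => MS a s 0 v) s) =
      some (Xap j.unpair.2.unpair.1 s z).toNat)))

/-- Friedberg-Muchnik strategy -/
def wantF (a : ℕ → ℕ) (s j x : ℕ) : Bool :=
  decide (U j.unpair.2.unpair.2 x (pre (fun v => MS a s (j.unpair.2.unpair.1 + 2) v) s) = some 0)

/-- is `j` a splitting requirement of block `b` of the splitting `c'`? -/
def isN (j c' b : ℕ) : Bool :=
  decide (j.unpair.1 = 2) && (decide (j.unpair.2.unpair.1 = c') &&
    decide (j.unpair.2.unpair.2.unpair.1 = b))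
/-- block `b` restrains `x` at stage `t` -/
def blk (a : ℕ → ℕ) (c' x t b : ℕ) : Bool :=
  bex t (fun t' => decide (x < t') && isN (a t') c' b)
/-- first entry -/
def fe (c x t : ℕ) : Bool := Xap c t x && ball t (fun t' => !Xap c t' x)
/-- the home of `x` entering at stage `t` -/
def hm (a : ℕ → ℕ) (c' x t : ℕ) : ℕ :=
  ((ffind (t+1) (fun b => bif blk a c' x t b then some b else none)).getD 0).unpair.2
/-- `x` has entered by stage `s` and has home `i` -/
def hEq (a : ℕ → ℕ) (c' x s i : ℕ) : Bool :=
  bex (s+1) (fun t => fe c'.unpair.1 x t && decide (hm a c' x t = i))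
/-- `x` has entered by stage `s` and has home different from `i` -/
def hNe (a : ℕ → ℕ) (c' x s i : ℕ) : Bool :=
  bex (s+1) (fun t => fe c'.unpair.1 x t && !decide (hm a c' x t = i))
/-- the set `X` without the piece `i` -/
def Yap (a : ℕ → ℕ) (c' i s x : ℕ) : Bool := Xap c'.unpair.1 s x && !hEq a c' x s i

/-- certified agreement at argument `y` -/
def agr (a : ℕ → ℕ) (c' b y s : ℕ) : Bool :=
  bex (s+1) fun u => bex (u+1) fun u0 =>
    decide (U b.unpair.1 y (pre (join (fun v => Xap c'.unpair.2.unpair.2.unpair.1 s v)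
      (fun v => Yap a c' b.unpair.2 s v)) u0) = some (Xap c'.unpair.1 s y).toNat) &&
    (ball u0 (fun x => !hNe a c' x s b.unpair.2 ||
      decide (U c'.unpair.2.unpair.1 x (pre (fun v => Xap c'.unpair.2.unpair.2.unpair.1 s v) u) =
        some (Xap c'.unpair.1 s x).toNat)) &&
    ball u (fun z => decide (U c'.unpair.2.unpair.2.unpair.2 z (pre (fun v => MS a s 1 v) s) =
      some (Xap c'.unpair.2.unpair.2.unpair.1 s z).toNat)))
/-- certified agreement up to `y` -/
def agree (a : ℕ → ℕ) (c' b y s : ℕ) : Bool := ball (y+1) (fun y' => agr a c' b y' s)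
/-- block `b` may be injured at stage `t` -/
def inj (a : ℕ → ℕ) (c' b t : ℕ) : Bool :=
  bex t (fun x => fe c'.unpair.1 x t && bex b (fun b' => blk a c' x t b'))
/-- splitting strategy -/
def wantN (a : ℕ → ℕ) (s p : ℕ) : Bool :=
  decide (p.unpair.2.unpair.2.unpair.2 ≤ s) &&
  ((decide (p.unpair.2.unpair.2.unpair.2 = 0) ||
    inj a p.unpair.1 p.unpair.2.unpair.1 p.unpair.2.unpair.2.unpair.2) &&
  (ball (s+1) (fun t => decide (t ≤ p.unpair.2.unpair.2.unpair.2) ||
    !inj a p.unpair.1 p.unpair.2.unpair.1 t) &&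
  agree a p.unpair.1 p.unpair.2.unpair.1 p.unpair.2.unpair.2.unpair.1 s))

/-- requirement `j` wants to act at stage `s` -/
def wt (m : ℕ) (a : ℕ → ℕ) (s j : ℕ) : Bool :=
  bex (s+1) fun t => legit a j t && (alive a j t s &&
    (bif decide (j.unpair.1 = 0) then
      decide (cnt a j t s ≤ m) && wantR a s j (Nat.pair j t)
    else bif decide (j.unpair.1 = 1) then
      decide (cnt a j t s = 0) && wantF a s j (Nat.pair j t)
    else bif decide (j.unpair.1 = 2) then
      decide (cnt a j t s = 0) && wantN a s j.unpair.2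
    else false))

/-! ### locality -/

section congr
variable {a a' : ℕ → ℕ}

theorem legit_congr {j t : ℕ} (h : ∀ t' < t, a t' = a' t') : legit a j t = legit a' j t := by
  unfold legit
  rcases Nat.eq_zero_or_pos t with ht | ht
  · subst ht
    rcases Nat.eq_zero_or_pos j with hj | hj
    · subst hj; simp
    · have : decide (j ≤ 0) = false := by simp; omega
      rw [this]; rfl
  · rw [h (t-1) (by omega)]

theorem alive_congr {j t s : ℕ} (h : ∀ t' < s, a t' = a' t') : alive a j t s = alive a' j t s := by
  unfold alive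
  exact ball_congr fun k hk => by rw [h k hk]

theorem cnt_congr {j t s : ℕ} (h : ∀ t' < s, a t' = a' t') : cnt a j t s = cnt a' j t s := by
  unfold cnt
  exact bcnt_congr fun k hk => by
    rw [h k hk, alive_congr (fun t' ht' => h t' (by omega))]

theorem M_congr {s x : ℕ} (h : ∀ t' < s, a t' = a' t') : M a s x = M a' s x := by
  unfold M
  by_cases hx : x.unpair.2 < s
  · rw [cnt_congr h, legit_congr (fun t' ht' => h t' (by omega))]
  · have : decide (x.unpair.2 < s) = false := by simpa using hx
    rw [this]; simp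

theorem MS_congr {s k x : ℕ} (h : ∀ t' < s, a t' = a' t') : MS a s k x = MS a' s k x := by
  unfold MS
  rw [M_congr h]

theorem wantR_congr {s j x : ℕ} (h : ∀ t' < s, a t' = a' t') :
    wantR a s j x = wantR a' s j x := by
  unfold wantR
  refine bex_congr fun u hu => ?_
  have h1 : ball s (fun t' => !decide (a t' = j) || decide (t' ≤ u)) =
      ball s (fun t' => !decide (a' t' = j) || decide (t' ≤ u)) :=
    ball_congr fun k hk => by rw [h k hk]
  have h2 : (fun v => MS a s 0 v) = fun v => MS a' s 0 v := by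
    funext v; exact MS_congr h
  rw [h1, MS_congr h, h2]

theorem wantF_congr {s j x : ℕ} (h : ∀ t' < s, a t' = a' t') :
    wantF a s j x = wantF a' s j x := by
  unfold wantF
  have h2 : (fun v => MS a s (j.unpair.2.unpair.1 + 2) v) =
      fun v => MS a' s (j.unpair.2.unpair.1 + 2) v := by
    funext v; exact MS_congr h
  rw [h2]

theorem blk_congr {c' x t b : ℕ} (h : ∀ t' < t, a t' = a' t') :
    blk a c' x t b = blk a' c' x t b := by
  unfold blk
  exact bex_congr fun k hk => by rw [h k hk]

theorem hm_congr {c' x t : ℕ} (h : ∀ t' < t, a t' = a' t') : hm a c' x t = hm a' c' x t := by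
  unfold hm
  have : ffind (t+1) (fun b => bif blk a c' x t b then some b else none) =
      ffind (t+1) (fun b => bif blk a' c' x t b then some b else none) :=
    ffind_congr fun k hk => by rw [blk_congr h]
  rw [this]

theorem hEq_congr {c' x s i : ℕ} (h : ∀ t' < s, a t' = a' t') :
    hEq a c' x s i = hEq a' c' x s i := by
  unfold hEq
  exact bex_congr fun k hk => by rw [hm_congr (fun t' ht' => h t' (by omega))]

theorem hNe_congr {c' x s i : ℕ} (h : ∀ t' < s, a t' = a' t') :
    hNe a c' x s i = hNe a' c' x s i := by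
  unfold hNe
  exact bex_congr fun k hk => by rw [hm_congr (fun t' ht' => h t' (by omega))]

theorem Yap_congr {c' i s x : ℕ} (h : ∀ t' < s, a t' = a' t') :
    Yap a c' i s x = Yap a' c' i s x := by
  unfold Yap
  rw [hEq_congr h]

theorem agr_congr {c' b y s : ℕ} (h : ∀ t' < s, a t' = a' t') :
    agr a c' b y s = agr a' c' b y s := by
  unfold agr
  refine bex_congr fun u hu => bex_congr fun u0 hu0 => ?_
  have h1 : (fun v => Yap a c' b.unpair.2 s v) = fun v => Yap a' c' b.unpair.2 s v := by
    funext v; exact Yap_congr h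
  have h2 : (fun v => MS a s 1 v) = fun v => MS a' s 1 v := by
    funext v; exact MS_congr h
  have h3 : ball u0 (fun x => !hNe a c' x s b.unpair.2 ||
      decide (U c'.unpair.2.unpair.1 x (pre (fun v => Xap c'.unpair.2.unpair.2.unpair.1 s v) u) =
        some (Xap c'.unpair.1 s x).toNat)) = ball u0 (fun x => !hNe a' c' x s b.unpair.2 ||
      decide (U c'.unpair.2.unpair.1 x (pre (fun v => Xap c'.unpair.2.unpair.2.unpair.1 s v) u) =
        some (Xap c'.unpair.1 s x).toNat)) :=
    ball_congr fun k hk => by rw [hNe_congr h]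
  rw [h1, h2, h3]

theorem agree_congr {c' b y s : ℕ} (h : ∀ t' < s, a t' = a' t') :
    agree a c' b y s = agree a' c' b y s := by
  unfold agree
  exact ball_congr fun k hk => agr_congr h

theorem inj_congr {c' b t : ℕ} (h : ∀ t' < t, a t' = a' t') : inj a c' b t = inj a' c' b t := by
  unfold inj
  refine bex_congr fun x hx => ?_
  have : bex b (fun b' => blk a c' x t b') = bex b (fun b' => blk a' c' x t b') :=
    bex_congr fun k hk => blk_congr h
  rw [this]

theorem wantN_congr {s p : ℕ} (h : ∀ t' < s, a t' = a' t') : wantN a s p = wantN a' s p := by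
  unfold wantN
  by_cases hq : p.unpair.2.unpair.2.unpair.2 ≤ s
  · have h1 : ball (s+1) (fun t => decide (t ≤ p.unpair.2.unpair.2.unpair.2) ||
        !inj a p.unpair.1 p.unpair.2.unpair.1 t) =
      ball (s+1) (fun t => decide (t ≤ p.unpair.2.unpair.2.unpair.2) ||
        !inj a' p.unpair.1 p.unpair.2.unpair.1 t) :=
      ball_congr fun k hk => by rw [inj_congr (fun t' ht' => h t' (by omega))]
    rw [h1, agree_congr h, inj_congr (fun t' ht' => h t' (by omega))]
  · have : decide (p.unpair.2.unpair.2.unpair.2 ≤ s) = false := by simpa using hq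
    rw [this]; rfl

theorem wt_congr {m s j : ℕ} (h : ∀ t' < s, a t' = a' t') : wt m a s j = wt m a' s j := by
  unfold wt
  refine bex_congr fun t ht => ?_
  rw [legit_congr (fun t' ht' => h t' (by omega)), alive_congr h, cnt_congr h, wantR_congr h,
    wantF_congr h, wantN_congr h]

end congr

/-! ### primitive recursiveness -/

/-- the function given by a list -/
def al (h : List ℕ) (t : ℕ) : ℕ := h.getD t 0

section prim
variable {α : Type*} [Primcodable α]

@[fun_prop] theorem pr_al {h : α → List ℕ} {t : α → ℕ} (hh : Primrec h) (ht : Primrec t) :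
    Primrec fun q => al (h q) (t q) := by
  unfold al
  fun_prop

/-- list version -/
def legitL (h : List ℕ) (j t : ℕ) : Bool := legit (al h) j t
@[fun_prop] theorem pr_legitL {h : α → List ℕ} {j t : α → ℕ} (hh : Primrec h) (hj : Primrec j)
    (ht : Primrec t) : Primrec fun q => legitL (h q) (j q) (t q) := by
  unfold legitL legit
  fun_prop

/-- list version -/
def aliveL (h : List ℕ) (j t s : ℕ) : Bool := alive (al h) j t s
@[fun_prop] theorem pr_aliveL {h : α → List ℕ} {j t s : α → ℕ} (hh : Primrec h) (hj : Primrec j)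
    (ht : Primrec t) (hs : Primrec s) : Primrec fun q => aliveL (h q) (j q) (t q) (s q) := by
  unfold aliveL alive
  fun_prop

/-- list version -/
def cntL (h : List ℕ) (j t s : ℕ) : ℕ := cnt (al h) j t s
@[fun_prop] theorem pr_cntL {h : α → List ℕ} {j t s : α → ℕ} (hh : Primrec h) (hj : Primrec j)
    (ht : Primrec t) (hs : Primrec s) : Primrec fun q => cntL (h q) (j q) (t q) (s q) := by
  show Primrec fun q => bcnt (s q) (fun t' => decide (t q ≤ t') && (decide (al (h q) t' = j q) &&
    aliveL (h q) (j q) (t q) t'))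
  fun_prop

/-- list version -/
def ML (h : List ℕ) (s x : ℕ) : Bool := M (al h) s x
@[fun_prop] theorem pr_ML {h : α → List ℕ} {s x : α → ℕ} (hh : Primrec h) (hs : Primrec s)
    (hx : Primrec x) : Primrec fun q => ML (h q) (s q) (x q) := by
  show Primrec fun q => legitL (h q) (x q).unpair.1 (x q).unpair.2 &&
    (decide ((x q).unpair.2 < s q) && decide (cntL (h q) (x q).unpair.1 (x q).unpair.2 (s q) % 2 = 1))
  fun_prop

@[fun_prop] theorem pr_colm {x : α → ℕ} (hx : Primrec x) : Primrec fun q => colm (x q) := by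
  unfold colm
  fun_prop
@[fun_prop] theorem pr_sel {k c : α → ℕ} (hk : Primrec k) (hc : Primrec c) :
    Primrec fun q => sel (k q) (c q) := by
  unfold sel
  fun_prop

/-- list version -/
def MSL (h : List ℕ) (s k x : ℕ) : Bool := MS (al h) s k x
@[fun_prop] theorem pr_MSL {h : α → List ℕ} {s k x : α → ℕ} (hh : Primrec h) (hs : Primrec s)
    (hk : Primrec k) (hx : Primrec x) : Primrec fun q => MSL (h q) (s q) (k q) (x q) := by
  show Primrec fun q => ML (h q) (s q) (x q) && (decide ((x q).unpair.1.unpair.1 ≤ 1) &&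
    sel (k q) (colm (x q)))
  fun_prop

/-- list version -/
def wantRL (h : List ℕ) (s j x : ℕ) : Bool := wantR (al h) s j x
@[fun_prop] theorem pr_wantRL {h : α → List ℕ} {s j x : α → ℕ} (hh : Primrec h) (hs : Primrec s)
    (hj : Primrec j) (hx : Primrec x) : Primrec fun q => wantRL (h q) (s q) (j q) (x q) := by
  show Primrec fun q => bex (s q+1) fun u =>
    ball (s q) (fun t' => !decide (al (h q) t' = j q) || decide (t' ≤ u)) &&
    (decide (U (j q).unpair.2.unpair.2.unpair.1 (x q)
      (pre (fun z => Xap (j q).unpair.2.unpair.1 (s q) z) u) = some (MSL (h q) (s q) 0 (x q)).toNat) &&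
    ball u (fun z => decide (U (j q).unpair.2.unpair.2.unpair.2 z
      (pre (fun v => MSL (h q) (s q) 0 v) (s q)) =
      some (Xap (j q).unpair.2.unpair.1 (s q) z).toNat)))
  fun_prop

/-- list version -/
def wantFL (h : List ℕ) (s j x : ℕ) : Bool := wantF (al h) s j x
@[fun_prop] theorem pr_wantFL {h : α → List ℕ} {s j x : α → ℕ} (hh : Primrec h) (hs : Primrec s)
    (hj : Primrec j) (hx : Primrec x) : Primrec fun q => wantFL (h q) (s q) (j q) (x q) := by
  show Primrec fun q => decide (U (j q).unpair.2.unpair.2 (x q)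
    (pre (fun v => MSL (h q) (s q) ((j q).unpair.2.unpair.1 + 2) v) (s q)) = some 0)
  fun_prop

@[fun_prop] theorem pr_isN {j c b : α → ℕ} (hj : Primrec j) (hc : Primrec c) (hb : Primrec b) :
    Primrec fun q => isN (j q) (c q) (b q) := by
  unfold isN
  fun_prop

/-- list version -/
def blkL (h : List ℕ) (c' x t b : ℕ) : Bool := blk (al h) c' x t b
@[fun_prop] theorem pr_blkL {h : α → List ℕ} {c' x t b : α → ℕ} (hh : Primrec h)
    (hc : Primrec c') (hx : Primrec x) (ht : Primrec t) (hb : Primrec b) :
    Primrec fun q => blkL (h q) (c' q) (x q) (t q) (b q) := by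
  unfold blkL blk
  fun_prop

@[fun_prop] theorem pr_fe {c x t : α → ℕ} (hc : Primrec c) (hx : Primrec x) (ht : Primrec t) :
    Primrec fun q => fe (c q) (x q) (t q) := by
  unfold fe
  fun_prop

/-- list version -/
def hmL (h : List ℕ) (c' x t : ℕ) : ℕ := hm (al h) c' x t
@[fun_prop] theorem pr_hmL {h : α → List ℕ} {c' x t : α → ℕ} (hh : Primrec h)
    (hc : Primrec c') (hx : Primrec x) (ht : Primrec t) :
    Primrec fun q => hmL (h q) (c' q) (x q) (t q) := by
  show Primrec fun q => ((ffind (t q+1) (fun b => bif blkL (h q) (c' q) (x q) (t q) b then some b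
    else none)).getD 0).unpair.2
  fun_prop

/-- list version -/
def hEqL (h : List ℕ) (c' x s i : ℕ) : Bool := hEq (al h) c' x s i
@[fun_prop] theorem pr_hEqL {h : α → List ℕ} {c' x s i : α → ℕ} (hh : Primrec h)
    (hc : Primrec c') (hx : Primrec x) (hs : Primrec s) (hi : Primrec i) :
    Primrec fun q => hEqL (h q) (c' q) (x q) (s q) (i q) := by
  show Primrec fun q => bex (s q+1) (fun t => fe (c' q).unpair.1 (x q) t &&
    decide (hmL (h q) (c' q) (x q) t = i q))
  fun_prop

/-- list version -/
def hNeL (h : List ℕ) (c' x s i : ℕ) : Bool := hNe (al h) c' x s i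
@[fun_prop] theorem pr_hNeL {h : α → List ℕ} {c' x s i : α → ℕ} (hh : Primrec h)
    (hc : Primrec c') (hx : Primrec x) (hs : Primrec s) (hi : Primrec i) :
    Primrec fun q => hNeL (h q) (c' q) (x q) (s q) (i q) := by
  show Primrec fun q => bex (s q+1) (fun t => fe (c' q).unpair.1 (x q) t &&
    !decide (hmL (h q) (c' q) (x q) t = i q))
  fun_prop

/-- list version -/
def YapL (h : List ℕ) (c' i s x : ℕ) : Bool := Yap (al h) c' i s x
@[fun_prop] theorem pr_YapL {h : α → List ℕ} {c' i s x : α → ℕ} (hh : Primrec h)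
    (hc : Primrec c') (hi : Primrec i) (hs : Primrec s) (hx : Primrec x) :
    Primrec fun q => YapL (h q) (c' q) (i q) (s q) (x q) := by
  show Primrec fun q => Xap (c' q).unpair.1 (s q) (x q) && !hEqL (h q) (c' q) (x q) (s q) (i q)
  fun_prop

@[fun_prop] theorem pr_join {A B : α → ℕ → Bool} {n : α → ℕ}
    (hA : Primrec fun q : α × ℕ => A q.1 q.2) (hB : Primrec fun q : α × ℕ => B q.1 q.2)
    (hn : Primrec n) : Primrec fun q => join (A q) (B q) (n q) := by
  unfold join
  refine pr_cond (by fun_prop) ?_ ?_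
  · exact hA.comp (f := fun q : α × ℕ => A q.1 q.2) (g := fun q => (q, n q / 2)) (by fun_prop)
  · exact hB.comp (f := fun q : α × ℕ => B q.1 q.2) (g := fun q => (q, n q / 2)) (by fun_prop)

/-- list version -/
def agrL (h : List ℕ) (c' b y s : ℕ) : Bool := agr (al h) c' b y s
@[fun_prop] theorem pr_agrL {h : α → List ℕ} {c' b y s : α → ℕ} (hh : Primrec h)
    (hc : Primrec c') (hb : Primrec b) (hy : Primrec y) (hs : Primrec s) :
    Primrec fun q => agrL (h q) (c' q) (b q) (y q) (s q) := by
  show Primrec fun q => bex (s q+1) fun u => bex (u+1) fun u0 =>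
    decide (U (b q).unpair.1 (y q) (pre (fun w => join
      (fun v => Xap (c' q).unpair.2.unpair.2.unpair.1 (s q) v)
      (fun v => YapL (h q) (c' q) (b q).unpair.2 (s q) v) w) u0) =
        some (Xap (c' q).unpair.1 (s q) (y q)).toNat) &&
    (ball u0 (fun x => !hNeL (h q) (c' q) x (s q) (b q).unpair.2 ||
      decide (U (c' q).unpair.2.unpair.1 x
        (pre (fun v => Xap (c' q).unpair.2.unpair.2.unpair.1 (s q) v) u) =
        some (Xap (c' q).unpair.1 (s q) x).toNat)) &&
    ball u (fun z => decide (U (c' q).unpair.2.unpair.2.unpair.2 z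
      (pre (fun v => MSL (h q) (s q) 1 v) (s q)) =
      some (Xap (c' q).unpair.2.unpair.2.unpair.1 (s q) z).toNat)))
  fun_prop

/-- list version -/
def agreeL (h : List ℕ) (c' b y s : ℕ) : Bool := agree (al h) c' b y s
@[fun_prop] theorem pr_agreeL {h : α → List ℕ} {c' b y s : α → ℕ} (hh : Primrec h)
    (hc : Primrec c') (hb : Primrec b) (hy : Primrec y) (hs : Primrec s) :
    Primrec fun q => agreeL (h q) (c' q) (b q) (y q) (s q) := by
  show Primrec fun q => ball (y q+1) (fun y' => agrL (h q) (c' q) (b q) y' (s q))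
  fun_prop

/-- list version -/
def injL (h : List ℕ) (c' b t : ℕ) : Bool := inj (al h) c' b t
@[fun_prop] theorem pr_injL {h : α → List ℕ} {c' b t : α → ℕ} (hh : Primrec h)
    (hc : Primrec c') (hb : Primrec b) (ht : Primrec t) :
    Primrec fun q => injL (h q) (c' q) (b q) (t q) := by
  show Primrec fun q => bex (t q) (fun x => fe (c' q).unpair.1 x (t q) &&
    bex (b q) (fun b' => blkL (h q) (c' q) x (t q) b'))
  fun_prop

/-- list version -/
def wantNL (h : List ℕ) (s p : ℕ) : Bool := wantN (al h) s p
@[fun_prop] theorem pr_wantNL {h : α → List ℕ} {s p : α → ℕ} (hh : Primrec h)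
    (hs : Primrec s) (hp : Primrec p) : Primrec fun q => wantNL (h q) (s q) (p q) := by
  show Primrec fun q => decide ((p q).unpair.2.unpair.2.unpair.2 ≤ (s q)) &&
    ((decide ((p q).unpair.2.unpair.2.unpair.2 = 0) ||
      injL (h q) (p q).unpair.1 (p q).unpair.2.unpair.1 (p q).unpair.2.unpair.2.unpair.2) &&
    (ball (s q+1) (fun t => decide (t ≤ (p q).unpair.2.unpair.2.unpair.2) ||
      !injL (h q) (p q).unpair.1 (p q).unpair.2.unpair.1 t) &&
    agreeL (h q) (p q).unpair.1 (p q).unpair.2.unpair.1 (p q).unpair.2.unpair.2.unpair.1 (s q)))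
  fun_prop

/-- list version -/
def wtL (m : ℕ) (h : List ℕ) (s j : ℕ) : Bool := wt m (al h) s j
@[fun_prop] theorem pr_wtL (m : ℕ) {h : α → List ℕ} {s j : α → ℕ} (hh : Primrec h)
    (hs : Primrec s) (hj : Primrec j) : Primrec fun q => wtL m (h q) (s q) (j q) := by
  show Primrec fun q => bex (s q+1) fun t => legitL (h q) (j q) t && (aliveL (h q) (j q) t (s q) &&
    (bif decide ((j q).unpair.1 = 0) then
      decide (cntL (h q) (j q) t (s q) ≤ m) && wantRL (h q) (s q) (j q) (Nat.pair (j q) t)
    else bif decide ((j q).unpair.1 = 1) then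
      decide (cntL (h q) (j q) t (s q) = 0) && wantFL (h q) (s q) (j q) (Nat.pair (j q) t)
    else bif decide ((j q).unpair.1 = 2) then
      decide (cntL (h q) (j q) t (s q) = 0) && wantNL (h q) (s q) (j q).unpair.2
    else false))
  fun_prop

end prim

end DegB
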