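import Pool.Agent.Lib_helper53.Deg.Oracle

/-!
# `n`-c.e. sets, clocked approximations, Lachlan's derivative, joins
-/

namespace DegB

open Nat.Partrec (Code)

/-- the stages at which a 0-1 sequence changes -/
def chg (f : ℕ → Bool) : Set ℕ := {s | f s ≠ f (s+1)}

/-- `g` is an `n`-c.e. approximation of `A` -/
structure Approx (n : ℕ) (g : ℕ → ℕ → Bool) (A : ℕ → Bool) : Prop where
  comp : Computable fun q : ℕ × ℕ => g q.1 q.2
  zero : ∀ x, g x 0 = false
  lim : ∀ x, ∃ s0, ∀ s ≥ s0, g x s = A x
  chg : ∀ x, (chg (g x)).encard ≤ n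

/-- `A` is `n`-c.e. -/
def NCE (n : ℕ) (A : ℕ → Bool) : Prop := ∃ g, Approx n g A

theorem NCE.mono {n n' : ℕ} (h : n ≤ n') {A : ℕ → Bool} (hA : NCE n A) : NCE n' A := by
  obtain ⟨g, h1, h2, h3, h4⟩ := hA
  exact ⟨g, h1, h2, h3, fun x => (h4 x).trans (by exact_mod_cast h)⟩

theorem exists_change {f : ℕ → Bool} {a b : ℕ} (hab : a ≤ b) (h : f a ≠ f b) :
    ∃ t, a ≤ t ∧ t < b ∧ f t ≠ f (t+1) := by
  induction b with
  | zero => rw [Nat.le_zero.1 hab] at h; exact absurd rfl h
  | succ b ih =>
    rcases Nat.lt_or_ge a (b+1) with h' | h'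
    · by_cases hb : f a = f b
      · exact ⟨b, by omega, by omega, by rwa [← hb]⟩
      · obtain ⟨t, h1, h2, h3⟩ := ih (by omega) hb
        exact ⟨t, h1, by omega, h3⟩
    · have : a = b+1 := by omega
      rw [this] at h; exact absurd rfl h

theorem chg_comp_le (f : ℕ → Bool) {τ : ℕ → ℕ} (hτ : Monotone τ) :
    (chg (fun s => f (τ s))).encard ≤ (chg f).encard := by
  classical
  have hex : ∀ s : ℕ, s ∈ chg (fun s => f (τ s)) → ∃ t, τ s ≤ t ∧ t < τ (s+1) ∧ f t ≠ f (t+1) :=
    fun s hs => exists_change (hτ (Nat.le_succ s)) hs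
  let φ : ℕ → ℕ := fun s => if h : s ∈ chg (fun s => f (τ s)) then (hex s h).choose else 0
  have hφ : ∀ s ∈ chg (fun s => f (τ s)), τ s ≤ φ s ∧ φ s < τ (s+1) ∧ f (φ s) ≠ f (φ s + 1) := by
    intro s hs
    have : φ s = (hex s hs).choose := dif_pos hs
    rw [this]
    exact (hex s hs).choose_spec
  refine Set.encard_le_encard_of_injOn (f := φ) (fun s hs => (hφ s hs).2.2) ?_
  intro s hs s' hs' heq
  rcases Nat.lt_trichotomy s s' with h | h | h
  · have h1 := (hφ s hs).2.1
    have h2 := (hφ s' hs').1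
    have h3 := hτ (show s + 1 ≤ s' by omega)
    omega
  · exact h
  · have h1 := (hφ s' hs').2.1
    have h2 := (hφ s hs).1
    have h3 := hτ (show s' + 1 ≤ s by omega)
    omega

/-! ### clocked approximations -/

/-- clocked approximation given by the `c`-th partial recursive function -/
def Xap (c s x : ℕ) : Bool :=
  blast s (fun t => (Code.evaln s (Denumerable.ofNat Code c) (Nat.pair x t)).map
    (fun r => decide (r = 1)))

@[fun_prop] theorem pr_Xap {α : Type*} [Primcodable α] {c s x : α → ℕ} (hc : Primrec c)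
    (hs : Primrec s) (hx : Primrec x) : Primrec fun a => Xap (c a) (s a) (x a) := by
  unfold Xap
  refine pr_blast hs ?_
  refine pr_omap ?_ (by fun_prop)
  exact pr_evaln (by fun_prop) (by fun_prop) (by fun_prop)

@[simp] theorem Xap_zero (c x : ℕ) : Xap c 0 x = false := rfl

/-- last converged index -/
def lastIdx (c x s n : ℕ) : ℕ :=
  Nat.rec 0 (fun k acc => if (Code.evaln s (Denumerable.ofNat Code c) (Nat.pair x k)).isSome
    then k else acc) n

theorem lastIdx_succ (c x s n : ℕ) : lastIdx c x s (n+1) =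
    if (Code.evaln s (Denumerable.ofNat Code c) (Nat.pair x n)).isSome then n
    else lastIdx c x s n := rfl

theorem lastIdx_lt (c x s n : ℕ) : lastIdx c x s n ≤ n - 1 := by
  induction n with
  | zero => exact le_rfl
  | succ n ih => rw [lastIdx_succ]; split_ifs <;> omega

theorem lastIdx_mono_n (c x s n : ℕ) : lastIdx c x s n ≤ lastIdx c x s (n+1) := by
  rw [lastIdx_succ]
  split_ifs
  · have := lastIdx_lt c x s n; omega
  · exact le_rfl

theorem lastIdx_mono_s (c x s n : ℕ) : lastIdx c x s n ≤ lastIdx c x (s+1) n := by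
  induction n with
  | zero => exact le_rfl
  | succ n ih =>
    rw [lastIdx_succ, lastIdx_succ]
    split_ifs with h1 h2
    · exact le_rfl
    · exfalso
      apply h2
      obtain ⟨v, hv⟩ := Option.isSome_iff_exists.1 h1
      exact Option.isSome_iff_exists.2 ⟨v, Code.evaln_mono (Nat.le_succ s) hv⟩
    · have := lastIdx_lt c x s n; omega
    · exact ih

theorem lastIdx_monotone (c x : ℕ) : Monotone fun s => lastIdx c x s s :=
  monotone_nat_of_le_succ fun s => (lastIdx_mono_s c x s s).trans (lastIdx_mono_n c x (s+1) s)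

theorem lastIdx_ge {c x s n t : ℕ} (ht : t < n)
    (h : (Code.evaln s (Denumerable.ofNat Code c) (Nat.pair x t)).isSome) :
    t ≤ lastIdx c x s n := by
  induction n with
  | zero => omega
  | succ n ih =>
    rcases Nat.lt_succ_iff_lt_or_eq.1 ht with h' | h'
    · exact (ih h').trans (lastIdx_mono_n c x s n)
    · subst h'; rw [lastIdx_succ, if_pos h]

theorem Xap_eq {c : ℕ} {g : ℕ → ℕ → Bool}
    (hc : ∀ x t, (Denumerable.ofNat Code c).eval (Nat.pair x t) = Part.some (g x t).toNat)
    (h0 : ∀ x, g x 0 = false) (s x : ℕ) : Xap c s x = g x (lastIdx c x s s) := by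
  have key : ∀ n, blast n (fun t => (Code.evaln s (Denumerable.ofNat Code c) (Nat.pair x t)).map
    (fun r => decide (r = 1))) = g x (lastIdx c x s n) := by
    intro n
    induction n with
    | zero => exact (h0 x).symm
    | succ n ih =>
      rw [blast_succ, lastIdx_succ, ih]
      rcases h : Code.evaln s (Denumerable.ofNat Code c) (Nat.pair x n) with _ | v
      · simp
      · have := Code.evaln_sound (Option.mem_def.2 h)
        rw [hc] at this
        have hv : v = (g x n).toNat := by simpa using this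
        simp only [Option.map_some, Option.getD_some, Option.isSome_some, if_true]
        rw [hv]; cases g x n <;> simp
  exact key s

theorem exists_index {n : ℕ} {g : ℕ → ℕ → Bool} {A : ℕ → Bool} (h : Approx n g A) :
    ∃ c, (∀ x, ∃ s0, ∀ s ≥ s0, Xap c s x = A x) ∧ (∀ x, (chg fun s => Xap c s x).encard ≤ n) ∧
      ∀ s x, Xap c s x = true → ∃ t, g x t = true := by
  have hg := h.comp
  have hG : Computable fun z : ℕ => (g z.unpair.1 z.unpair.2).toNat :=
    co_toNat (hg.comp (f := fun q : ℕ × ℕ => g q.1 q.2) (g := fun z : ℕ => (z.unpair.1, z.unpair.2))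
      (by fun_prop))
  obtain ⟨code, hcode⟩ := Code.exists_code.1 (Partrec.nat_iff.1 hG.partrec)
  have hc : ∀ x t, (Denumerable.ofNat Code (Encodable.encode code)).eval (Nat.pair x t) =
      Part.some (g x t).toNat := by
    intro x t
    rw [Denumerable.ofNat_encode, hcode]
    simp
  refine ⟨Encodable.encode code, fun x => ?_, fun x => ?_, fun s x hx => ?_⟩
  · obtain ⟨s0, hs0⟩ := h.lim x
    have : s0 ∈ ({t | t = s0} : Set ℕ) := rfl
    have hconv : ∃ k, (Code.evaln k (Denumerable.ofNat Code (Encodable.encode code))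
        (Nat.pair x s0)).isSome := by
      have h1 : (g x s0).toNat ∈ (Denumerable.ofNat Code (Encodable.encode code)).eval
          (Nat.pair x s0) := by rw [hc]; simp
      obtain ⟨k, hk⟩ := Code.evaln_complete.1 h1
      exact ⟨k, Option.isSome_iff_exists.2 ⟨_, hk⟩⟩
    obtain ⟨k, hk⟩ := hconv
    refine ⟨max k (s0+1), fun s hs => ?_⟩
    rw [Xap_eq hc h.zero]
    apply hs0
    apply lastIdx_ge (by omega)
    obtain ⟨v, hv⟩ := Option.isSome_iff_exists.1 hk
    exact Option.isSome_iff_exists.2 ⟨v, Code.evaln_mono (show k ≤ s by omega) hv⟩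
  · have : (fun s => Xap (Encodable.encode code) s x) =
        fun s => g x (lastIdx (Encodable.encode code) x s s) := by
      funext s; exact Xap_eq hc h.zero s x
    rw [this]
    exact (chg_comp_le (g x) (lastIdx_monotone _ x)).trans (h.chg x)
  · rw [Xap_eq hc h.zero] at hx
    exact ⟨_, hx⟩

/-! ### Lachlan's derivative -/

/-- `x` enters for the first time at stage `s` -/
def fent (g : ℕ → ℕ → Bool) (x s : ℕ) : Bool := g x s && ball s (fun s' => !g x s')

/-- approximation of Lachlan's derivative -/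
def Lg (g : ℕ → ℕ → Bool) (z t : ℕ) : Bool :=
  fent g z.unpair.1 z.unpair.2 && (decide (z.unpair.2 ≤ t) && !g z.unpair.1 t)

/-- Lachlan's derivative -/
def LA (g : ℕ → ℕ → Bool) (A : ℕ → Bool) (z : ℕ) : Bool :=
  fent g z.unpair.1 z.unpair.2 && !A z.unpair.1

theorem fent_iff {g : ℕ → ℕ → Bool} {x s : ℕ} :
    fent g x s = true ↔ g x s = true ∧ ∀ s' < s, g x s' = false := by
  unfold fent
  rw [Bool.and_eq_true, ball_iff]
  simp

theorem fent_unique {g : ℕ → ℕ → Bool} {x s s' : ℕ} (h : fent g x s = true)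
    (h' : fent g x s' = true) : s = s' := by
  rw [fent_iff] at h h'
  rcases Nat.lt_trichotomy s s' with h1 | h1 | h1
  · have := h'.2 s h1; rw [h.1] at this; simp at this
  · exact h1
  · have := h.2 s' h1; rw [h'.1] at this; simp at this

theorem fent_exists {g : ℕ → ℕ → Bool} {x s : ℕ} (h : g x s = true) :
    ∃ s' ≤ s, fent g x s' = true := by
  classical
  have hex : ∃ s, g x s = true := ⟨s, h⟩
  refine ⟨Nat.find hex, Nat.find_min' hex h, fent_iff.2 ⟨Nat.find_spec hex, fun s' hs' => ?_⟩⟩
  have := Nat.find_min hex hs'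
  simpa using this

theorem approx_Lg {n : ℕ} {g : ℕ → ℕ → Bool} {A : ℕ → Bool} (h : Approx (n+1) g A) :
    Approx n (Lg g) (LA g A) := by
  have hg := h.comp
  have hfent : Computable fun q : ℕ × ℕ => fent g q.1.unpair.1 q.1.unpair.2 := by
    unfold fent
    refine co_and (hg.comp (f := fun q : ℕ × ℕ => g q.1 q.2)
      (g := fun q : ℕ × ℕ => (q.1.unpair.1, q.1.unpair.2)) (by fun_prop)) ?_
    refine co_ball (by fun_prop) (co_not ?_)
    exact (hg.comp (f := fun q : ℕ × ℕ => g q.1 q.2)
      (g := fun q : (ℕ × ℕ) × ℕ => (q.1.1.unpair.1, q.2)) (by fun_prop))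
  refine ⟨?_, ?_, ?_, ?_⟩
  · unfold Lg
    refine co_and hfent (co_and (by fun_prop) (co_not ?_))
    exact (hg.comp (f := fun q : ℕ × ℕ => g q.1 q.2)
      (g := fun q : (ℕ × ℕ) => (q.1.unpair.1, q.2)) (by fun_prop))
  · intro z
    unfold Lg
    by_cases hz : z.unpair.2 = 0
    · rw [hz]
      have : fent g z.unpair.1 0 = false := by
        unfold fent; rw [h.zero]; rfl
      rw [this]; rfl
    · have : decide (z.unpair.2 ≤ 0) = false := by simp; omega
      rw [this]; simp
  · intro z
    obtain ⟨s0, hs0⟩ := h.lim z.unpair.1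
    refine ⟨max s0 z.unpair.2, fun s hs => ?_⟩
    unfold Lg LA
    rw [hs0 s (by omega)]
    have : decide (z.unpair.2 ≤ s) = true := by simp; omega
    rw [this]; simp
  · intro z
    cases hf : fent g z.unpair.1 z.unpair.2
    · have : chg (Lg g z) = ∅ := by
        ext s
        simp [chg, Lg, hf]
      rw [this]; simp
    · have hf' := fent_iff.1 hf
      have hpos : 1 ≤ z.unpair.2 := by
        by_contra hc
        have : z.unpair.2 = 0 := by omega
        rw [this, h.zero] at hf'
        simp at hf'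
      have hsub : chg (Lg g z) ⊆ chg (g z.unpair.1) \ {z.unpair.2 - 1} := by
        intro t ht
        simp only [chg, Set.mem_ofPred_eq, Lg, hf, Bool.true_and] at ht
        rcases Nat.lt_or_ge t z.unpair.2 with h1 | h1
        · exfalso
          apply ht
          have e1 : decide (z.unpair.2 ≤ t) = false := by simp; omega
          rw [e1, Bool.false_and]
          by_cases h2 : z.unpair.2 ≤ t + 1
          · have : t + 1 = z.unpair.2 := by omega
            rw [this, hf'.1]; simp
          · have e2 : decide (z.unpair.2 ≤ t + 1) = false := by simp; omega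
            rw [e2]; simp
        · have e1 : decide (z.unpair.2 ≤ t) = true := by simp; omega
          have e2 : decide (z.unpair.2 ≤ t + 1) = true := by simp; omega
          rw [e1, e2, Bool.true_and, Bool.true_and] at ht
          refine ⟨?_, ?_⟩
          · intro hc
            apply ht
            rw [hc]
          · simp only [Set.mem_singleton_iff]; omega
      have hmem : z.unpair.2 - 1 ∈ chg (g z.unpair.1) := by
        simp only [chg, Set.mem_ofPred_eq]
        rw [hf'.2 _ (by omega), show z.unpair.2 - 1 + 1 = z.unpair.2 by omega, hf'.1]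
        simp
      have h1 := Set.encard_sdiff_singleton_add_one hmem
      have h2 := h.chg z.unpair.1
      rw [← h1] at h2
      have h3 : (chg (g z.unpair.1) \ {z.unpair.2 - 1}).encard ≤ n := by
        have : (chg (g z.unpair.1) \ {z.unpair.2 - 1}).encard + 1 ≤ (n : ℕ∞) + 1 := by
          exact_mod_cast h2
        exact (ENat.add_le_add_iff_right (by simp)).1 this
      exact (Set.encard_le_encard hsub).trans h3

theorem TR_LA {n : ℕ} {g : ℕ → ℕ → Bool} {A : ℕ → Bool} (h : Approx n g A) : TR (LA g A) A := by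
  have hg := h.comp
  rw [TR_iff]
  refine ⟨fun z σ => (σ[z.unpair.1]?).map
    (fun b => (fent g z.unpair.1 z.unpair.2 && !b).toNat), ?_, ?_, ?_⟩
  · show Computable fun q : ℕ × List Bool => (q.2[q.1.unpair.1]?).map
      (fun b => (fent g q.1.unpair.1 q.1.unpair.2 && !b).toNat)
    refine co_omap (by fun_prop) (co_toNat (co_and ?_ (by fun_prop)))
    unfold fent
    refine co_and (hg.comp (f := fun q : ℕ × ℕ => g q.1 q.2)
      (g := fun q : (ℕ × List Bool) × Bool => (q.1.1.unpair.1, q.1.1.unpair.2)) (by fun_prop)) ?_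
    refine co_ball (by fun_prop) (co_not ?_)
    exact (hg.comp (f := fun q : ℕ × ℕ => g q.1 q.2)
      (g := fun q : ((ℕ × List Bool) × Bool) × ℕ => (q.1.1.1.unpair.1, q.2)) (by fun_prop))
  · intro y σ τ v hs hv
    simp only [Option.map_eq_some_iff] at hv ⊢
    obtain ⟨b, hb, rfl⟩ := hv
    obtain ⟨t, rfl⟩ := hs
    have hy : y.unpair.1 < σ.length := by
      by_contra hc
      rw [List.getElem?_eq_none (by omega)] at hb
      simp at hb
    exact ⟨b, by rw [List.getElem?_append_left hy]; exact hb, rfl⟩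
  · intro z
    refine ⟨z.unpair.1 + 1, ?_⟩
    show ((pre A (z.unpair.1 + 1))[z.unpair.1]?).map _ = _
    rw [pre_getElem?, if_pos (by omega)]
    rfl

theorem exists_psi {n : ℕ} {g : ℕ → ℕ → Bool} {A B : ℕ → Bool} (h : Approx n g A)
    (hL : TR (LA g A) B) : ∃ ψ, ∀ x, (∃ s, g x s = true) →
      ∃ n, U ψ x (pre B n) = some (A x).toNat := by
  have hg := h.comp
  obtain ⟨F, hF1, hF2, hF3⟩ := TR_iff.1 hL
  have hF1' : Computable fun q : ℕ × List Bool => F q.1 q.2 := hF1
  let G : ℕ → List Bool → Option ℕ := fun x σ =>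
    (ffind σ.length (fun s => bif fent g x s then some s else none)).bind
      (fun s => (F (Nat.pair x s) σ).map (fun v => 1 - v))
  have hG1 : Computable₂ G := by
    show Computable fun q : ℕ × List Bool =>
      (ffind q.2.length (fun s => bif fent g q.1 s then some s else none)).bind
      (fun s => (F (Nat.pair q.1 s) q.2).map (fun v => 1 - v))
    refine co_obind (co_ffind (by fun_prop) (co_cond ?_ (by fun_prop) (by fun_prop))) ?_
    · unfold fent
      refine co_and (hg.comp (f := fun q : ℕ × ℕ => g q.1 q.2)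
        (g := fun q : (ℕ × List Bool) × ℕ => (q.1.1, q.2)) (by fun_prop)) ?_
      refine co_ball (by fun_prop) (co_not ?_)
      exact (hg.comp (f := fun q : ℕ × ℕ => g q.1 q.2)
        (g := fun q : ((ℕ × List Bool) × ℕ) × ℕ => (q.1.1.1, q.2)) (by fun_prop))
    · refine co_omap ?_ (by fun_prop)
      exact hF1'.comp (f := fun q : ℕ × List Bool => F q.1 q.2)
        (g := fun q : (ℕ × List Bool) × ℕ => (Nat.pair q.1.1 q.2, q.1.2)) (by fun_prop)
  have hG2 : Mono G := by
    intro x σ τ v hs hv
    simp only [G, Option.bind_eq_some_iff, Option.map_eq_some_iff] at hv ⊢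
    obtain ⟨s, h1, w, h2, h3⟩ := hv
    exact ⟨s, ffind_mono hs.length_le h1, w, hF2 _ _ _ _ hs h2, h3⟩
  obtain ⟨ψ, hψ⟩ := U_univ hG1 hG2
  refine ⟨ψ, fun x hx => (hψ x B _).2 ?_⟩
  obtain ⟨s, hs⟩ := hx
  obtain ⟨s', _, hs'⟩ := fent_exists hs
  obtain ⟨N, hN⟩ := hF3 (Nat.pair x s')
  refine ⟨max N (s'+1), ?_⟩
  simp only [G, Option.bind_eq_some_iff, Option.map_eq_some_iff]
  refine ⟨s', ?_, (LA g A (Nat.pair x s')).toNat, hF2.pre (by omega) hN, ?_⟩
  · rw [pre_length]
    refine ffind_eq_some.2 ⟨s', by omega, by rw [hs']; rfl, fun k hk => ?_⟩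
    have : fent g x k = false := by
      rw [Bool.eq_false_iff]; intro hc
      have := fent_unique hc hs'; omega
    rw [this]; rfl
  · unfold LA
    rw [Nat.unpair_pair]
    simp only
    rw [hs']
    cases A x <;> rfl

/-! ### joins -/

/-- join of two sets -/
def join (A B : ℕ → Bool) (n : ℕ) : Bool :=
  bif decide (n % 2 = 0) then A (n / 2) else B (n / 2)

theorem join_even (A B : ℕ → Bool) (k : ℕ) : join A B (2*k) = A k := by
  unfold join
  have h1 : 2 * k % 2 = 0 := by omega
  have h2 : 2 * k / 2 = k := by omega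
  rw [h1, h2]; rfl

theorem join_odd (A B : ℕ → Bool) (k : ℕ) : join A B (2*k+1) = B k := by
  unfold join
  have h1 : (2 * k + 1) % 2 = 1 := by omega
  have h2 : (2 * k + 1) / 2 = k := by omega
  rw [h1, h2]; rfl

theorem pre_join_congr {A A' B B' : ℕ → Bool} {n : ℕ} (h1 : ∀ k < n, A k = A' k)
    (h2 : ∀ k < n, B k = B' k) : pre (join A B) n = pre (join A' B') n := by
  apply pre_congr
  intro k hk
  unfold join
  rw [h1 (k/2) (by omega), h2 (k/2) (by omega)]

theorem TR_join_left (A B : ℕ → Bool) : TR A (join A B) := by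
  rw [TR_iff]
  refine ⟨fun y σ => (σ[2*y]?).map (fun b => b.toNat), ?_, ?_, ?_⟩
  · show Computable fun q : ℕ × List Bool => (q.2[2*q.1]?).map (fun b => b.toNat)
    fun_prop
  · intro y σ τ v hs hv
    simp only [Option.map_eq_some_iff] at hv ⊢
    obtain ⟨b, hb, rfl⟩ := hv
    obtain ⟨t, rfl⟩ := hs
    have hy : 2 * y < σ.length := by
      by_contra hc
      rw [List.getElem?_eq_none (by omega)] at hb
      simp at hb
    exact ⟨b, by rw [List.getElem?_append_left hy]; exact hb, rfl⟩
  · intro y
    refine ⟨2*y+1, ?_⟩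
    show ((pre (join A B) (2*y+1))[2*y]?).map _ = _
    rw [pre_getElem?, if_pos (by omega), join_even]
    rfl

theorem TR_join_right (A B : ℕ → Bool) : TR B (join A B) := by
  rw [TR_iff]
  refine ⟨fun y σ => (σ[2*y+1]?).map (fun b => b.toNat), ?_, ?_, ?_⟩
  · show Computable fun q : ℕ × List Bool => (q.2[2*q.1+1]?).map (fun b => b.toNat)
    fun_prop
  · intro y σ τ v hs hv
    simp only [Option.map_eq_some_iff] at hv ⊢
    obtain ⟨b, hb, rfl⟩ := hv
    obtain ⟨t, rfl⟩ := hs
    have hy : 2 * y + 1 < σ.length := by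
      by_contra hc
      rw [List.getElem?_eq_none (by omega)] at hb
      simp at hb
    exact ⟨b, by rw [List.getElem?_append_left hy]; exact hb, rfl⟩
  · intro y
    refine ⟨2*y+2, ?_⟩
    show ((pre (join A B) (2*y+2))[2*y+1]?).map _ = _
    rw [pre_getElem?, if_pos (by omega), join_odd]
    rfl

theorem TR_join {A B C : ℕ → Bool} (hA : TR A C) (hB : TR B C) : TR (join A B) C := by
  obtain ⟨F, hF1, hF2, hF3⟩ := TR_iff.1 hA
  obtain ⟨G, hG1, hG2, hG3⟩ := TR_iff.1 hB
  have hF1' : Computable fun q : ℕ × List Bool => F q.1 q.2 := hF1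
  have hG1' : Computable fun q : ℕ × List Bool => G q.1 q.2 := hG1
  rw [TR_iff]
  refine ⟨fun y σ => bif decide (y % 2 = 0) then F (y/2) σ else G (y/2) σ, ?_, ?_, ?_⟩
  · show Computable fun q : ℕ × List Bool =>
      bif decide (q.1 % 2 = 0) then F (q.1/2) q.2 else G (q.1/2) q.2
    refine co_cond (by fun_prop) ?_ ?_
    · exact hF1'.comp (f := fun q : ℕ × List Bool => F q.1 q.2)
        (g := fun q : (ℕ × List Bool) => (q.1/2, q.2)) (by fun_prop)
    · exact hG1'.comp (f := fun q : ℕ × List Bool => G q.1 q.2)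
        (g := fun q : (ℕ × List Bool) => (q.1/2, q.2)) (by fun_prop)
  · intro y σ τ v hs hv
    by_cases h : y % 2 = 0
    · simp only [h, decide_true, cond_true] at hv ⊢
      exact hF2 _ _ _ _ hs hv
    · simp only [h, decide_false, cond_false] at hv ⊢
      exact hG2 _ _ _ _ hs hv
  · intro y
    by_cases h : y % 2 = 0
    · obtain ⟨n, hn⟩ := hF3 (y/2)
      refine ⟨n, ?_⟩
      simp only [h, decide_true, cond_true, join]
      exact hn
    · obtain ⟨n, hn⟩ := hG3 (y/2)
      refine ⟨n, ?_⟩
      simp only [h, decide_false, cond_false, join]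
      exact hn

theorem NCE_join {n : ℕ} {A B : ℕ → Bool} (hA : NCE n A) (hB : NCE n B) : NCE n (join A B) := by
  obtain ⟨g, g1, g2, g3, g4⟩ := hA
  obtain ⟨h, h1, h2, h3, h4⟩ := hB
  refine ⟨fun x s => bif decide (x % 2 = 0) then g (x/2) s else h (x/2) s, ?_, ?_, ?_, ?_⟩
  · refine co_cond (by fun_prop) ?_ ?_
    · exact g1.comp (f := fun q : ℕ × ℕ => g q.1 q.2)
        (g := fun q : (ℕ × ℕ) => (q.1/2, q.2)) (by fun_prop)
    · exact h1.comp (f := fun q : ℕ × ℕ => h q.1 q.2)
        (g := fun q : (ℕ × ℕ) => (q.1/2, q.2)) (by fun_prop)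
  · intro x
    simp only [g2, h2]
    cases decide (x % 2 = 0) <;> rfl
  · intro x
    unfold join
    by_cases hx : x % 2 = 0
    · simp only [hx, decide_true, cond_true]; exact g3 _
    · simp only [hx, decide_false, cond_false]; exact h3 _
  · intro x
    by_cases hx : x % 2 = 0
    · simp only [hx, decide_true, cond_true]; exact g4 _
    · simp only [hx, decide_false, cond_false]; exact h4 _

/-- computable sets are reducible to everything -/
theorem TR_of_computable {A : ℕ → Bool} (hA : Computable A) (B : ℕ → Bool) : TR A B := by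
  rw [TR_iff]
  refine ⟨fun y _ => some (A y).toNat, ?_, ?_, fun y => ⟨0, rfl⟩⟩
  · show Computable fun q : ℕ × List Bool => some (A q.1).toNat
    exact co_some (co_toNat (hA.comp (by fun_prop)))
  · intro y σ τ v _ h; exact h

theorem NCE_zero {A : ℕ → Bool} (h : NCE 0 A) : A = fun _ => false := by
  obtain ⟨g, g1, g2, g3, g4⟩ := h
  funext x
  have h1 : chg (g x) = ∅ := by
    have := g4 x
    simpa using this
  have h2 : ∀ s, g x s = false := by
    intro s
    induction s with
    | zero => exact g2 x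
    | succ s ih =>
      by_contra hc
      have : s ∈ chg (g x) := by
        simp only [chg, Set.mem_ofPred_eq]
        rw [ih]
        simp at hc
        rw [hc]; simp
      rw [h1] at this
      exact this
  obtain ⟨s0, hs0⟩ := g3 x
  rw [← hs0 s0 le_rfl, h2]

/-- If `X` is `n`-c.e. and `X` is not below `B` then some `Y` in its Lachlan chain is the first
with derivative below `B`. -/
theorem lachlan_chain {n : ℕ} {X B : ℕ → Bool} (hX : NCE n X) (hB : ¬ TR X B) :
    ∃ (k : ℕ) (g : ℕ → ℕ → Bool) (Y : ℕ → Bool), k ≤ n ∧ Approx k g Y ∧ TR Y X ∧ ¬ TR Y B ∧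
      TR (LA g Y) B := by
  induction n generalizing X with
  | zero =>
    exfalso; apply hB
    rw [NCE_zero hX]
    exact TR_of_computable (Computable.const false) B
  | succ n ih =>
    obtain ⟨g, hg⟩ := hX
    by_cases h : TR (LA g X) B
    · exact ⟨n+1, g, X, le_rfl, hg, TR.refl X, hB, h⟩
    · obtain ⟨k, g', Y, h1, h2, h3, h4, h5⟩ := ih ⟨Lg g, approx_Lg hg⟩ h
      exact ⟨k, g', Y, by omega, h2, h3.trans (TR_LA hg), h4, h5⟩

end DegB
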