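import Pool.Agent.Lib_helper53.Deg.Basic

/-!
# Turing reducibility through monotone computable functionals

`TR A B` is Mathlib's Turing reducibility between the characteristic functions of `A` and `B`.
We characterise it by monotone computable functionals on finite prefixes, and define a
universal primitive recursive functional `U`.
-/

namespace DegB

open Nat.Partrec

/-- characteristic function, as a partial function -/
def chi (A : ℕ → Bool) : ℕ →. ℕ := fun n => Part.some (A n).toNat

/-- `A ≤_T B` -/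
def TR (A B : ℕ → Bool) : Prop := TuringReducible (chi A) (chi B)

/-- monotone functional on finite prefixes -/
def Mono (F : ℕ → List Bool → Option ℕ) : Prop :=
  ∀ y σ τ v, σ <+: τ → F y σ = some v → F y τ = some v

theorem Mono.pre {F : ℕ → List Bool → Option ℕ} (hF : Mono F) {y : ℕ} {B : ℕ → Bool} {n n' v : ℕ}
    (h : n ≤ n') (hv : F y (pre B n) = some v) : F y (pre B n') = some v :=
  hF _ _ _ _ (pre_prefix B h) hv

theorem Mono.unique {F : ℕ → List Bool → Option ℕ} (hF : Mono F) {y : ℕ} {B : ℕ → Bool}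
    {n n' v v' : ℕ} (hv : F y (DegB.pre B n) = some v) (hv' : F y (DegB.pre B n') = some v') :
    v = v' := by
  have h1 := hF.pre (Nat.le_max_left n n') hv
  have h2 := hF.pre (Nat.le_max_right n n') hv'
  rw [h1] at h2
  exact Option.some.inj h2

/-- `f` is computed from `B` by a monotone computable functional -/
def Red (f : ℕ →. ℕ) (B : ℕ → Bool) : Prop :=
  ∃ F : ℕ → List Bool → Option ℕ, Computable₂ F ∧ Mono F ∧
    ∀ y v, v ∈ f y ↔ ∃ n, F y (pre B n) = some v

theorem red_of_computable {f : ℕ → ℕ} (hf : Computable f) (B : ℕ → Bool) :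
    Red (fun n => Part.some (f n)) B := by
  refine ⟨fun y _ => some (f y), ?_, ?_, ?_⟩
  · show Computable fun q : ℕ × List Bool => some (f q.1)
    fun_prop
  · intro y σ τ v _ h; exact h
  · intro y v
    simp [eq_comm]

theorem red_oracle (B : ℕ → Bool) : Red (chi B) B := by
  refine ⟨fun y σ => (σ[y]?).map Bool.toNat, ?_, ?_, ?_⟩
  · show Computable fun q : ℕ × List Bool => (q.2[q.1]?).map fun b => b.toNat
    fun_prop
  · intro y σ τ v h hv
    simp only [Option.map_eq_some_iff] at hv ⊢
    obtain ⟨b, hb, rfl⟩ := hv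
    obtain ⟨t, rfl⟩ := h
    have hy : y < σ.length := by
      by_contra hc
      rw [List.getElem?_eq_none (by omega)] at hb
      simp at hb
    exact ⟨b, by rw [List.getElem?_append_left hy]; exact hb, rfl⟩
  · intro y v
    simp only [chi, Part.mem_some_iff, pre_getElem?]
    constructor
    · rintro rfl
      exact ⟨y+1, by simp⟩
    · rintro ⟨n, hn⟩
      by_cases h : y < n
      · rw [if_pos h] at hn; simpa using hn.symm
      · rw [if_neg h] at hn; simp at hn

theorem red_pair {f h : ℕ →. ℕ} {B : ℕ → Bool} (hf : Red f B) (hh : Red h B) :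
    Red (fun n => (Nat.pair <$> f n <*> h n)) B := by
  obtain ⟨F, hF1, hF2, hF3⟩ := hf
  obtain ⟨H, hH1, hH2, hH3⟩ := hh
  refine ⟨fun y σ => (F y σ).bind fun a => (H y σ).map fun b => Nat.pair a b, ?_, ?_, ?_⟩
  · show Computable fun q : ℕ × List Bool => (F q.1 q.2).bind fun a => (H q.1 q.2).map fun b => Nat.pair a b
    have h1 : Computable fun q : ℕ × List Bool => F q.1 q.2 := hF1
    have h2 : Computable fun q : ℕ × List Bool => H q.1 q.2 := hH1
    refine co_obind h1 ?_
    refine co_omap (f := fun q : (ℕ × List Bool) × ℕ => H q.1.1 q.1.2) (h2.comp (co_fst co_id)) ?_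
    fun_prop
  · intro y σ τ v hs hv
    simp only [Option.bind_eq_some_iff, Option.map_eq_some_iff] at hv ⊢
    obtain ⟨a, ha, b, hb, rfl⟩ := hv
    exact ⟨a, hF2 _ _ _ _ hs ha, b, hH2 _ _ _ _ hs hb, rfl⟩
  · intro y v
    simp only [Seq.seq, Functor.map, Part.mem_bind_iff, Part.mem_map_iff]
    constructor
    · rintro ⟨g, ⟨a, ha, rfl⟩, b, hb, rfl⟩
      obtain ⟨n, hn⟩ := (hF3 _ _).1 ha
      obtain ⟨n', hn'⟩ := (hH3 _ _).1 hb
      refine ⟨max n n', ?_⟩
      simp only [Option.bind_eq_some_iff, Option.map_eq_some_iff]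
      exact ⟨a, hF2.pre (le_max_left _ _) hn, b, hH2.pre (le_max_right _ _) hn', rfl⟩
    · rintro ⟨n, hn⟩
      simp only [Option.bind_eq_some_iff, Option.map_eq_some_iff] at hn
      obtain ⟨a, ha, b, hb, rfl⟩ := hn
      exact ⟨_, ⟨a, (hF3 _ _).2 ⟨n, ha⟩, rfl⟩, b, (hH3 _ _).2 ⟨n, hb⟩, rfl⟩

theorem red_comp {f h : ℕ →. ℕ} {B : ℕ → Bool} (hf : Red f B) (hh : Red h B) :
    Red (fun n => h n >>= f) B := by
  obtain ⟨F, hF1, hF2, hF3⟩ := hf
  obtain ⟨H, hH1, hH2, hH3⟩ := hh
  refine ⟨fun y σ => (H y σ).bind fun a => F a σ, ?_, ?_, ?_⟩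
  · show Computable fun q : ℕ × List Bool => (H q.1 q.2).bind fun a => F a q.2
    have h1 : Computable fun q : ℕ × List Bool => F q.1 q.2 := hF1
    have h2 : Computable fun q : ℕ × List Bool => H q.1 q.2 := hH1
    refine co_obind h2 ?_
    exact h1.comp (f := fun q : ℕ × List Bool => F q.1 q.2)
      (g := fun q : (ℕ × List Bool) × ℕ => (q.2, q.1.2)) (by fun_prop)
  · intro y σ τ v hs hv
    simp only [Option.bind_eq_some_iff] at hv ⊢
    obtain ⟨a, ha, hb⟩ := hv
    exact ⟨a, hH2 _ _ _ _ hs ha, hF2 _ _ _ _ hs hb⟩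
  · intro y v
    simp only [Bind.bind, Part.mem_bind_iff]
    constructor
    · rintro ⟨a, ha, hb⟩
      obtain ⟨n, hn⟩ := (hH3 _ _).1 ha
      obtain ⟨n', hn'⟩ := (hF3 _ _).1 hb
      refine ⟨max n n', ?_⟩
      simp only [Option.bind_eq_some_iff]
      exact ⟨a, hH2.pre (le_max_left _ _) hn, hF2.pre (le_max_right _ _) hn'⟩
    · rintro ⟨n, hn⟩
      simp only [Option.bind_eq_some_iff] at hn
      obtain ⟨a, ha, hb⟩ := hn
      exact ⟨a, (hH3 _ _).2 ⟨n, ha⟩, (hF3 _ _).2 ⟨n, hb⟩⟩

theorem red_prec {f h : ℕ →. ℕ} {B : ℕ → Bool} (hf : Red f B) (hh : Red h B) :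
    Red (fun p => let (a, n) := Nat.unpair p
        n.rec (f a) fun y IH => do
          let i ← IH
          h (Nat.pair a (Nat.pair y i))) B := by
  obtain ⟨F, hF1, hF2, hF3⟩ := hf
  obtain ⟨H, hH1, hH2, hH3⟩ := hh
  refine ⟨fun p σ => Nat.rec (F p.unpair.1 σ)
    (fun y IH => IH.bind fun i => H (Nat.pair p.unpair.1 (Nat.pair y i)) σ) p.unpair.2, ?_, ?_, ?_⟩
  · show Computable fun q : ℕ × List Bool => (Nat.rec (F q.1.unpair.1 q.2)
      (fun y IH => IH.bind fun i => H (Nat.pair q.1.unpair.1 (Nat.pair y i)) q.2) q.1.unpair.2 : Option ℕ)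
    have h1 : Computable fun q : ℕ × List Bool => F q.1 q.2 := hF1
    have h2 : Computable fun q : ℕ × List Bool => H q.1 q.2 := hH1
    refine Computable.nat_rec (f := fun q : ℕ × List Bool => q.1.unpair.2)
      (g := fun q : ℕ × List Bool => F q.1.unpair.1 q.2)
      (h := fun q r => r.2.bind fun i => H (Nat.pair q.1.unpair.1 (Nat.pair r.1 i)) q.2)
      (by fun_prop) ?_ ?_
    · exact h1.comp (f := fun q : ℕ × List Bool => F q.1 q.2)
        (g := fun q : (ℕ × List Bool) => (q.1.unpair.1, q.2)) (by fun_prop)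
    · show Computable fun q : (ℕ × List Bool) × (ℕ × Option ℕ) =>
        q.2.2.bind fun i => H (Nat.pair q.1.1.unpair.1 (Nat.pair q.2.1 i)) q.1.2
      refine co_obind (by fun_prop) ?_
      exact h2.comp (f := fun q : ℕ × List Bool => H q.1 q.2)
        (g := fun q : ((ℕ × List Bool) × (ℕ × Option ℕ)) × ℕ =>
          (Nat.pair q.1.1.1.unpair.1 (Nat.pair q.1.2.1 q.2), q.1.1.2)) (by fun_prop)
  · intro p σ τ v hs
    show (Nat.rec (F p.unpair.1 σ)
      (fun y IH => IH.bind fun i => H (Nat.pair p.unpair.1 (Nat.pair y i)) σ) p.unpair.2 : Option ℕ) = some v →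
      (Nat.rec (F p.unpair.1 τ)
      (fun y IH => IH.bind fun i => H (Nat.pair p.unpair.1 (Nat.pair y i)) τ) p.unpair.2 : Option ℕ) = some v
    generalize p.unpair.2 = k
    induction k generalizing v with
    | zero => intro hv; exact hF2 _ _ _ _ hs hv
    | succ k ih =>
      intro hv
      simp only [Option.bind_eq_some_iff] at hv ⊢
      obtain ⟨a, ha, hb⟩ := hv
      exact ⟨a, ih a ha, hH2 _ _ _ _ hs hb⟩
  · intro p v
    show v ∈ (Nat.rec (f p.unpair.1) (fun y IH => IH.bind fun i => h (Nat.pair p.unpair.1 (Nat.pair y i))) p.unpair.2 : Part ℕ) ↔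
      ∃ n, (Nat.rec (F p.unpair.1 (pre B n))
      (fun y IH => IH.bind fun i => H (Nat.pair p.unpair.1 (Nat.pair y i)) (pre B n)) p.unpair.2 : Option ℕ) = some v
    generalize p.unpair.2 = k
    induction k generalizing v with
    | zero => exact hF3 _ _
    | succ k ih =>
      simp only [Part.mem_bind_iff, Option.bind_eq_some_iff]
      constructor
      · rintro ⟨a, ha, hb⟩
        obtain ⟨n, hn⟩ := (ih a).1 ha
        obtain ⟨n', hn'⟩ := (hH3 _ _).1 hb
        refine ⟨max n n', a, ?_, hH2.pre (le_max_right _ _) hn'⟩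
        clear ih ha hb hn'
        revert hn
        generalize hm : max n n' = M
        have hM : n ≤ M := hm ▸ le_max_left _ _
        clear hm
        induction k generalizing a with
        | zero => intro hn; exact hF2.pre hM hn
        | succ k ih2 =>
          intro hn
          simp only [Option.bind_eq_some_iff] at hn ⊢
          obtain ⟨b, hb, hc⟩ := hn
          exact ⟨b, ih2 b hb, hH2.pre hM hc⟩
      · rintro ⟨n, a, ha, hb⟩
        exact ⟨a, (ih a).2 ⟨n, ha⟩, (hH3 _ _).2 ⟨n, hb⟩⟩

/-- the test used for unbounded search -/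
def rfT (F : ℕ → List Bool → Option ℕ) (a : ℕ) (σ : List Bool) (n : ℕ) : Bool :=
  decide (F (Nat.pair a n) σ = some 0) &&
    ball n (fun m => (F (Nat.pair a m) σ).isSome && !decide (F (Nat.pair a m) σ = some 0))

theorem red_rfind {f : ℕ →. ℕ} {B : ℕ → Bool} (hf : Red f B) :
    Red (fun a => Nat.rfind fun n => (fun m => m = 0) <$> f (Nat.pair a n)) B := by
  obtain ⟨F, hF1, hF2, hF3⟩ := hf
  refine ⟨fun a σ => ffind σ.length (fun n => bif rfT F a σ n then some n else none), ?_, ?_, ?_⟩
  · show Computable fun q : ℕ × List Bool =>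
      ffind q.2.length (fun n => bif rfT F q.1 q.2 n then some n else none)
    have h1 : Computable fun q : ℕ × List Bool => F q.1 q.2 := hF1
    refine co_ffind (by fun_prop) ?_
    refine co_cond ?_ (by fun_prop) (by fun_prop)
    unfold rfT
    refine co_and (co_deqo ?_ (by fun_prop)) (co_ball (by fun_prop) (co_and (co_isSome ?_) (co_not (co_deqo ?_ (by fun_prop)))))
    · exact h1.comp (f := fun q : ℕ × List Bool => F q.1 q.2)
        (g := fun q : (ℕ × List Bool) × ℕ => (Nat.pair q.1.1 q.2, q.1.2)) (by fun_prop)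
    · exact h1.comp (f := fun q : ℕ × List Bool => F q.1 q.2)
        (g := fun q : ((ℕ × List Bool) × ℕ) × ℕ => (Nat.pair q.1.1.1 q.2, q.1.1.2)) (by fun_prop)
    · exact h1.comp (f := fun q : ℕ × List Bool => F q.1 q.2)
        (g := fun q : ((ℕ × List Bool) × ℕ) × ℕ => (Nat.pair q.1.1.1 q.2, q.1.1.2)) (by fun_prop)
  · intro a σ τ v hs hv
    obtain ⟨k, hk, h1, h2⟩ := ffind_eq_some.1 hv
    have hkv : rfT F a σ k = true ∧ k = v := by
      cases hc : rfT F a σ k <;> simp [hc] at h1; exact ⟨rfl, h1⟩
    obtain ⟨hT, rfl⟩ := hkv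
    have key : ∀ m, m ≤ k → ∃ w, F (Nat.pair a m) σ = some w ∧ (w = 0 ↔ m = k) := by
      intro m hm
      unfold rfT at hT
      rw [Bool.and_eq_true, decide_eq_true_eq, ball_iff] at hT
      rcases Nat.lt_or_eq_of_le hm with h | h
      · have := hT.2 m h
        rw [Bool.and_eq_true, Option.isSome_iff_exists] at this
        obtain ⟨⟨w, hw⟩, h'⟩ := this
        refine ⟨w, hw, ?_⟩
        rw [hw] at h'
        constructor
        · rintro rfl; simp at h'
        · intro h''; omega
      · subst h; exact ⟨0, hT.1, by simp⟩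
    have key' : ∀ m, m ≤ k → ∃ w, F (Nat.pair a m) τ = some w ∧ (w = 0 ↔ m = k) := by
      intro m hm
      obtain ⟨w, hw, h'⟩ := key m hm
      exact ⟨w, hF2 _ _ _ _ hs hw, h'⟩
    refine ffind_eq_some.2 ⟨k, lt_of_lt_of_le hk hs.length_le, ?_, ?_⟩
    · have : rfT F a τ k = true := by
        unfold rfT
        rw [Bool.and_eq_true, decide_eq_true_eq, ball_iff]
        constructor
        · obtain ⟨w, hw, h'⟩ := key' k le_rfl
          rw [hw, h'.2 rfl]
        · intro m hm
          obtain ⟨w, hw, h'⟩ := key' m hm.le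
          have hw0 : w ≠ 0 := fun h0 => by have := h'.1 h0; omega
          rw [hw]; simp [hw0]
      rw [this]; rfl
    · intro m hm
      have : rfT F a τ m = false := by
        rw [Bool.eq_false_iff]
        intro hT'
        unfold rfT at hT'
        rw [Bool.and_eq_true, decide_eq_true_eq] at hT'
        obtain ⟨w, hw, h'⟩ := key' m hm.le
        rw [hw] at hT'
        have := Option.some.inj hT'.1
        have := h'.1 this
        omega
      rw [this]; rfl
  · intro a v
    rw [Nat.mem_rfind]
    simp only [Functor.map, Part.mem_map_iff, decide_eq_true_eq, decide_eq_false_iff_not]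
    constructor
    · rintro ⟨⟨w, hw, hw0⟩, hmin⟩
      subst hw0
      have h1 : ∀ m, m < v → ∃ n w, F (Nat.pair a m) (pre B n) = some w ∧ w ≠ 0 := by
        intro m hm
        obtain ⟨w, hw, hw0⟩ := hmin hm
        obtain ⟨n, hn⟩ := (hF3 _ _).1 hw
        exact ⟨n, w, hn, hw0⟩
      obtain ⟨n0, hn0⟩ := (hF3 _ _).1 hw
      have h2 : ∃ N, ∀ m, m < v → ∃ w, F (Nat.pair a m) (pre B N) = some w ∧ w ≠ 0 := by
        clear hmin hw hn0
        induction v with
        | zero => exact ⟨0, fun m hm => absurd hm (Nat.not_lt_zero m)⟩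
        | succ v ih =>
          obtain ⟨N, hN⟩ := ih (fun m hm => h1 m (by omega))
          obtain ⟨n, w, hn, hw⟩ := h1 v (by omega)
          refine ⟨max N n, fun m hm => ?_⟩
          rcases Nat.lt_succ_iff_lt_or_eq.1 hm with h' | h'
          · obtain ⟨w', h3, h4⟩ := hN m h'
            exact ⟨w', hF2.pre (le_max_left _ _) h3, h4⟩
          · subst h'; exact ⟨w, hF2.pre (le_max_right _ _) hn, hw⟩
      obtain ⟨N, hN⟩ := h2
      refine ⟨max (max N n0) (v+1), ffind_eq_some.2 ⟨v, by simp, ?_, ?_⟩⟩
      · have : rfT F a (pre B (max (max N n0) (v+1))) v = true := by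
          unfold rfT
          rw [Bool.and_eq_true, decide_eq_true_eq, ball_iff]
          refine ⟨hF2.pre (by omega) hn0, fun m hm => ?_⟩
          obtain ⟨w, hw, hw0⟩ := hN m hm
          rw [hF2.pre (n' := max (max N n0) (v+1)) (by omega) hw]; simp [hw0]
        rw [this]; rfl
      · intro m hm
        have : rfT F a (pre B (max (max N n0) (v+1))) m = false := by
          rw [Bool.eq_false_iff]
          intro hT'
          unfold rfT at hT'
          rw [Bool.and_eq_true, decide_eq_true_eq] at hT'
          obtain ⟨w, hw, hw0⟩ := hN m hm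
          rw [hF2.pre (n' := max (max N n0) (v+1)) (by omega) hw] at hT'
          exact hw0 (Option.some.inj hT'.1)
        rw [this]; rfl
    · rintro ⟨n, hn⟩
      obtain ⟨k, hk, h1, h2⟩ := ffind_eq_some.1 hn
      have hkv : rfT F a (pre B n) k = true ∧ k = v := by
        cases hc : rfT F a (pre B n) k <;> simp [hc] at h1; exact ⟨rfl, h1⟩
      obtain ⟨hT, rfl⟩ := hkv
      unfold rfT at hT
      rw [Bool.and_eq_true, decide_eq_true_eq, ball_iff] at hT
      refine ⟨⟨0, (hF3 _ _).2 ⟨n, hT.1⟩, rfl⟩, ?_⟩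
      intro m hm
      have := hT.2 m hm
      rw [Bool.and_eq_true, Option.isSome_iff_exists] at this
      obtain ⟨⟨w, hw⟩, h'⟩ := this
      refine ⟨w, (hF3 _ _).2 ⟨n, hw⟩, ?_⟩
      rintro rfl
      rw [hw] at h'; simp at h'

theorem red_of_recursiveIn {f : ℕ →. ℕ} {B : ℕ → Bool} (h : Nat.RecursiveIn {chi B} f) :
    Red f B := by
  induction h with
  | zero => exact red_of_computable (Computable.const 0) B
  | succ => exact red_of_computable Computable.succ B
  | left => exact red_of_computable (f := fun n => (Nat.unpair n).1) (by fun_prop) B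
  | right => exact red_of_computable (f := fun n => (Nat.unpair n).2) (by fun_prop) B
  | oracle g hg => rw [Set.mem_singleton_iff.1 hg]; exact red_oracle B
  | pair _ _ h1 h2 => exact red_pair h1 h2
  | comp _ _ h1 h2 => exact red_comp h1 h2
  | prec _ _ h1 h2 => exact red_prec h1 h2
  | rfind _ h1 => exact red_rfind h1


section converse
variable {O : Set (ℕ →. ℕ)}

theorem ri_of_computable {f : ℕ → ℕ} (hf : Computable f) :
    Nat.RecursiveIn O (fun n => Part.some (f n)) :=
  Nat.Partrec.recursiveIn (Partrec.nat_iff.1 hf)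

theorem ri_comp {G : ℕ → ℕ} {g : ℕ → ℕ} (hG : Nat.RecursiveIn O (fun n => Part.some (G n)))
    (hg : Nat.RecursiveIn O (fun n => Part.some (g n))) :
    Nat.RecursiveIn O (fun n => Part.some (G (g n))) :=
  (Nat.RecursiveIn.comp hG hg).of_eq fun n => by simp

theorem ri_pair {G : ℕ → ℕ} {g : ℕ → ℕ} (hG : Nat.RecursiveIn O (fun n => Part.some (G n)))
    (hg : Nat.RecursiveIn O (fun n => Part.some (g n))) :
    Nat.RecursiveIn O (fun n => Part.some (Nat.pair (G n) (g n))) :=
  (Nat.RecursiveIn.pair hG hg).of_eq fun n => by simp [Seq.seq]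

theorem ri_oracle (B : ℕ → Bool) : Nat.RecursiveIn {chi B} (fun n => Part.some (B n).toNat) :=
  Nat.RecursiveIn.oracle _ rfl

theorem ri_pre (B : ℕ → Bool) :
    Nat.RecursiveIn {chi B} (fun n => Part.some (Encodable.encode (pre B n))) := by
  have hG : Computable fun r : ℕ => Encodable.encode
      ((((Encodable.decode r.unpair.1.unpair.2.unpair.2 : Option (List Bool)).getD [])) ++
        [decide (r.unpair.2 = 1)]) := by
    have hd : Computable (Encodable.decode : ℕ → Option (List Bool)) := Computable.decode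
    fun_prop
  have h1 : Nat.RecursiveIn {chi B} (fun p : ℕ => Part.some (Nat.rec (Encodable.encode ([] : List Bool))
      (fun y i => Encodable.encode
      ((((Encodable.decode i : Option (List Bool)).getD [])) ++ [decide ((B y).toNat = 1)]))
      p.unpair.2)) := by
    have hh : Nat.RecursiveIn {chi B} (fun r : ℕ => Part.some (Encodable.encode
      ((((Encodable.decode r.unpair.2.unpair.2 : Option (List Bool)).getD [])) ++
        [decide ((B r.unpair.2.unpair.1).toNat = 1)]))) := by
      have h2 : Nat.RecursiveIn {chi B} (fun r : ℕ => Part.some (Nat.pair r (B r.unpair.2.unpair.1).toNat)) :=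
        ri_pair (ri_of_computable (by fun_prop)) (ri_comp (g := fun r => r.unpair.2.unpair.1) (ri_oracle B)
          (ri_of_computable (by fun_prop)))
      refine (ri_comp (ri_of_computable hG) h2).of_eq fun n => by simp
    have h3 : Nat.RecursiveIn {chi B} (fun _ : ℕ => Part.some (Encodable.encode ([] : List Bool))) :=
      ri_of_computable (by fun_prop)
    refine (Nat.RecursiveIn.prec h3 hh).of_eq fun p => ?_
    show (Nat.rec _ _ p.unpair.2 : Part ℕ) = _
    generalize p.unpair.2 = k
    induction k with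
    | zero => rfl
    | succ k ih =>
      simp only [Part.bind_eq_bind, Nat.unpair_pair] at ih ⊢
      rw [ih, Part.bind_some]
  have h4 : Nat.RecursiveIn {chi B} (fun n => Part.some (Nat.pair 0 n)) :=
    ri_of_computable (by fun_prop)
  refine (ri_comp (G := fun p => Nat.rec (Encodable.encode ([] : List Bool))
      (fun y i => Encodable.encode
      ((((Encodable.decode i : Option (List Bool)).getD [])) ++ [decide ((B y).toNat = 1)]))
      p.unpair.2) h1 h4).of_eq fun n => ?_
  congr 1
  rw [Nat.unpair_pair]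
  induction n with
  | zero => rfl
  | succ n ih =>
    simp only at ih ⊢
    rw [ih, pre_succ, Encodable.encodek]
    simp only [Option.getD_some]
    congr 3
    cases B n <;> simp

theorem recursiveIn_of_red {f : ℕ →. ℕ} {B : ℕ → Bool} (h : Red f B) :
    Nat.RecursiveIn {chi B} f := by
  obtain ⟨F, hF1, hF2, hF3⟩ := h
  have hF1' : Computable fun q : ℕ × List Bool => F q.1 q.2 := hF1
  -- `T (pair y n)` encodes `F y (pre B n)`
  have hT : Nat.RecursiveIn {chi B}
      (fun r : ℕ => Part.some (Encodable.encode (F r.unpair.1 (pre B r.unpair.2)))) := by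
    have hG : Computable fun z : ℕ => Encodable.encode (F z.unpair.1
        ((Encodable.decode z.unpair.2 : Option (List Bool)).getD [])) := by
      have hd : Computable (Encodable.decode : ℕ → Option (List Bool)) := Computable.decode
      exact co_encode (hF1'.comp (f := fun q : ℕ × List Bool => F q.1 q.2)
        (g := fun z : ℕ => (z.unpair.1, (Encodable.decode z.unpair.2 : Option (List Bool)).getD []))
        (by fun_prop))
    have h2 : Nat.RecursiveIn {chi B}
        (fun r : ℕ => Part.some (Nat.pair r.unpair.1 (Encodable.encode (pre B r.unpair.2)))) :=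
      ri_pair (ri_of_computable (by fun_prop)) (ri_comp (g := fun r => r.unpair.2) (ri_pre B)
        (ri_of_computable (by fun_prop)))
    refine (ri_comp (ri_of_computable hG) h2).of_eq fun n => by simp
  have hT0 : Nat.RecursiveIn {chi B}
      (fun r : ℕ => Part.some (1 - Encodable.encode (F r.unpair.1 (pre B r.unpair.2)))) :=
    ri_comp (G := fun e => 1 - e) (ri_of_computable (by fun_prop)) hT
  have hR := Nat.RecursiveIn.rfind hT0
  have hP : Nat.RecursiveIn {chi B}
      (fun r : ℕ => Part.some (Encodable.encode (F r.unpair.1 (pre B r.unpair.2)) - 1)) :=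
    ri_comp (G := fun e => e - 1) (ri_of_computable (by fun_prop)) hT
  have hfin := Nat.RecursiveIn.comp hP (Nat.RecursiveIn.pair (ri_of_computable (O := {chi B})
    (f := fun y => y) (by fun_prop)) hR)
  refine hfin.of_eq fun y => Part.ext fun v => ?_
  simp only [Seq.seq, Functor.map, Part.bind_eq_bind, Part.mem_bind_iff,
    Part.mem_map_iff, Part.mem_some_iff, Part.bind_some, Part.map_some]
  constructor
  · rintro ⟨r, ⟨n, hn, rfl⟩, hv⟩
    rw [Nat.mem_rfind] at hn
    simp only [Part.mem_some_iff] at hn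
    rw [Nat.unpair_pair] at hn hv
    simp only at hn hv
    rw [hF3]
    refine ⟨n, ?_⟩
    rcases hFv : F y (pre B n) with _ | w
    · rw [hFv] at hn; simp at hn
    · rw [hFv] at hv; simp at hv; rw [hv]
  · intro hv
    obtain ⟨n, hn⟩ := (hF3 _ _).1 hv
    classical
    have hex : ∃ n, (F y (pre B n)).isSome := ⟨n, by rw [hn]; rfl⟩
    obtain ⟨w, hw⟩ := Option.isSome_iff_exists.1 (Nat.find_spec hex)
    have hwv : w = v := hF2.unique hw hn
    subst hwv
    refine ⟨Nat.pair y (Nat.find hex), ⟨Nat.find hex, ?_, rfl⟩, ?_⟩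
    · rw [Nat.mem_rfind]
      refine ⟨?_, ?_⟩
      · simp only [Part.mem_some_iff, Nat.unpair_pair]
        rw [hw]; simp
      · intro m hm
        have := Nat.find_min hex hm
        simp only [Part.mem_some_iff, Nat.unpair_pair]
        have h0 : F y (pre B m) = Option.none := by simpa using this
        rw [h0]; simp
    · simp only [Nat.unpair_pair]
      rw [hw]; simp

end converse

theorem red_iff {f : ℕ →. ℕ} {B : ℕ → Bool} : Nat.RecursiveIn {chi B} f ↔ Red f B :=
  ⟨red_of_recursiveIn, recursiveIn_of_red⟩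

/-- reducibility between sets through functionals -/
theorem TR_iff {A B : ℕ → Bool} : TR A B ↔ ∃ F : ℕ → List Bool → Option ℕ,
    Computable₂ F ∧ Mono F ∧ ∀ y, ∃ n, F y (pre B n) = some (A y).toNat := by
  have : TR A B ↔ Red (chi A) B := by
    rw [TR, TuringReducible, RecursiveIn.iff_nat, red_iff]
  rw [this]
  constructor
  · rintro ⟨F, h1, h2, h3⟩
    exact ⟨F, h1, h2, fun y => (h3 y _).1 (by simp [chi])⟩
  · rintro ⟨F, h1, h2, h3⟩
    refine ⟨F, h1, h2, fun y v => ?_⟩
    simp only [chi, Part.mem_some_iff]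
    constructor
    · rintro rfl; exact h3 y
    · rintro ⟨n, hn⟩
      obtain ⟨n', hn'⟩ := h3 y
      exact h2.unique hn hn'

theorem TR.refl (A : ℕ → Bool) : TR A A := TuringReducible.refl _
theorem TR.trans {A B C : ℕ → Bool} (h1 : TR A B) (h2 : TR B C) : TR A C :=
  TuringReducible.trans h1 h2

/-! ### the universal functional -/

/-- one step of the universal functional -/
def stepU (c y : ℕ) (σ : List Bool) (k : ℕ) : Option ℕ :=
  (Code.evaln k.unpair.1 (Denumerable.ofNat Code c)
    (Nat.pair y (Encodable.encode (σ.take k.unpair.2)))).bind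
    (fun r => bif decide (r = 0) then none else some (r - 1))

/-- the universal monotone functional -/
def U (c y : ℕ) (σ : List Bool) : Option ℕ := ffind (σ.length + 1) (stepU c y σ)

theorem U_mono (c : ℕ) : Mono (U c) := by
  intro y σ τ v hs hv
  unfold U at hv ⊢
  have hl := hs.length_le
  apply ffind_mono (n := σ.length + 1) (by omega)
  rw [← hv]
  apply ffind_congr
  intro k hk
  unfold stepU
  have : τ.take k.unpair.2 = σ.take k.unpair.2 := by
    obtain ⟨t, rfl⟩ := hs
    rw [List.take_append_of_le_length]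
    have := Nat.unpair_right_le k
    omega
  rw [this]

@[fun_prop] theorem pr_evaln {α : Type*} [Primcodable α] {k c x : α → ℕ} (hk : Primrec k)
    (hc : Primrec c) (hx : Primrec x) :
    Primrec fun a => Code.evaln (k a) (Denumerable.ofNat Code (c a)) (x a) :=
  Code.primrec_evaln.comp (((hk.pair ((Primrec.ofNat Code).comp hc))).pair hx)

@[fun_prop] theorem pr_U {α : Type*} [Primcodable α] {c y : α → ℕ} {σ : α → List Bool}
    (hc : Primrec c) (hy : Primrec y) (hσ : Primrec σ) :
    Primrec fun a => U (c a) (y a) (σ a) := by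
  unfold U stepU
  refine pr_ffind (by fun_prop) ?_
  refine pr_obind ?_ (by fun_prop)
  exact pr_evaln (by fun_prop) (by fun_prop) (by fun_prop)

theorem U_univ {F : ℕ → List Bool → Option ℕ} (hF : Computable₂ F) (hm : Mono F) :
    ∃ c, ∀ y (O : ℕ → Bool) v, (∃ n, U c y (pre O n) = some v) ↔ ∃ n, F y (pre O n) = some v := by
  have hF' : Computable fun q : ℕ × List Bool => F q.1 q.2 := hF
  have hd : Computable (Encodable.decode : ℕ → Option (List Bool)) := Computable.decode
  have hG : Computable fun z : ℕ => Encodable.encode (F z.unpair.1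
        ((Encodable.decode z.unpair.2 : Option (List Bool)).getD [])) :=
    co_encode (hF'.comp (f := fun q : ℕ × List Bool => F q.1 q.2)
        (g := fun z : ℕ => (z.unpair.1, (Encodable.decode z.unpair.2 : Option (List Bool)).getD []))
        (by fun_prop))
  obtain ⟨code, hcode⟩ := Code.exists_code.1 (Partrec.nat_iff.1 hG.partrec)
  refine ⟨Encodable.encode code, fun y O v => ?_⟩
  have hof : (Denumerable.ofNat Code (Encodable.encode code)) = code := Denumerable.ofNat_encode code
  have hval : ∀ y σ r, r ∈ code.eval (Nat.pair y (Encodable.encode σ)) ↔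
      r = Encodable.encode (F y σ) := by
    intro y σ r
    rw [hcode]
    simp
  constructor
  · rintro ⟨n, hn⟩
    obtain ⟨k, hk, h1, _⟩ := ffind_eq_some.1 hn
    unfold stepU at h1
    rw [hof] at h1
    simp only [Option.bind_eq_some_iff] at h1
    obtain ⟨r, hr, h2⟩ := h1
    have h3 := (hval _ _ _).1 (Code.evaln_sound hr)
    rcases hFv : F y (List.take (Nat.unpair k).2 (pre O n)) with _ | w
    · rw [hFv] at h3; simp at h3; subst h3; simp at h2
    · rw [hFv] at h3
      simp at h3
      subst h3
      simp at h2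
      subst h2
      exact ⟨n, hm _ _ _ _ (List.take_prefix _ _) hFv⟩
  · rintro ⟨n, hn⟩
    have h1 := (hval y (pre O n) _).2 rfl
    obtain ⟨k, hk⟩ := Code.evaln_complete.1 h1
    have hstep : ∀ N, Nat.pair k n < N + 1 → ∃ w k', U (Encodable.encode code) y (pre O N) = some w ∧
        k' ≤ Nat.pair k n ∧ stepU (Encodable.encode code) y (pre O N) k' = some w := by
      intro N hN
      have hs : (stepU (Encodable.encode code) y (pre O N) (Nat.pair k n)).isSome := by
        unfold stepU
        rw [hof, Nat.unpair_pair]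
        simp only
        have hn' : n ≤ N := le_trans (Nat.right_le_pair k n) (by omega)
        rw [pre_take O hn', Option.mem_def.1 hk, hn]
        simp
      obtain ⟨w, k', hk', h2, h3⟩ := ffind_exists (n := (pre O N).length + 1) (by simpa using hN) hs
      exact ⟨w, k', h3, hk', h2⟩
    obtain ⟨w, k', h2, hk', h3⟩ := hstep (Nat.pair k n) (by omega)
    refine ⟨Nat.pair k n, ?_⟩
    rw [h2]
    congr 1
    -- the value found is a value of `F`
    unfold stepU at h3
    rw [hof] at h3
    simp only [Option.bind_eq_some_iff] at h3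
    obtain ⟨r, hr, h4⟩ := h3
    have h5 := (hval _ _ _).1 (Code.evaln_sound hr)
    rcases hFv : F y (List.take (Nat.unpair k').2 (pre O (Nat.pair k n))) with _ | w'
    · rw [hFv] at h5; simp at h5; subst h5; simp at h4
    · rw [hFv] at h5
      simp at h5
      subst h5
      simp at h4
      subst h4
      have h6 := hm _ _ _ _ (List.take_prefix _ _) hFv
      exact hm.unique h6 hn

theorem TR_iff_U {A B : ℕ → Bool} :
    TR A B ↔ ∃ c, ∀ y, ∃ n, U c y (pre B n) = some (A y).toNat := by
  constructor
  · intro h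
    obtain ⟨F, h1, h2, h3⟩ := TR_iff.1 h
    obtain ⟨c, hc⟩ := U_univ h1 h2
    exact ⟨c, fun y => (hc y B _).2 (h3 y)⟩
  · rintro ⟨c, hc⟩
    refine TR_iff.2 ⟨U c, ?_, U_mono c, hc⟩
    have : Primrec fun q : ℕ × List Bool => U c q.1 q.2 := by fun_prop
    exact this.to_comp

end DegB
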