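import Pool.Agent.Lib_helper53.Deg.VerN

/-!
# The pieces of the splitting and the interval theorem for sets
-/

namespace DegB

/-- the part of `X` with home in `P` -/
noncomputable def Zl (m c' : ℕ) (X : ℕ → Bool) (P : ℕ → Bool) (x : ℕ) : Bool :=
  X x && P (home m c' x)

theorem Zl_true (m c' : ℕ) (X : ℕ → Bool) : Zl m c' X (fun _ => true) = X := by
  funext x; simp [Zl]

theorem Zl_false (m c' : ℕ) (X : ℕ → Bool) : Zl m c' X (fun _ => false) = fun _ => false := by
  funext x; simp [Zl]

theorem Yl_eq (m c' : ℕ) (X : ℕ → Bool) (i : ℕ) :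
    Yl m c' X i = Zl m c' X (fun k => !decide (k = i)) := rfl

theorem home_hmL {m c' x t : ℕ} (h : fe c'.unpair.1 x t = true) :
    hmL (hist m t) c' x t = home m c' x := by
  rw [home_eq h]
  exact hm_congr (fun t' ht' => al_hist ht')

section
variable {m c' : ℕ} {X : ℕ → Bool} (hX : ∀ x, ∃ s0, ∀ s ≥ s0, Xap c'.unpair.1 s x = X x)

include hX in
theorem TR_piece {P Q : ℕ → Bool} (hP : Computable P) (hPQ : ∀ i, P i = true → Q i = true) :
    TR (Zl m c' X P) (Zl m c' X Q) := by
  rw [TR_iff]
  refine ⟨fun x σ => (σ[x]?).bind fun b => bif b then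
    (ffind σ.length (fun t => bif fe c'.unpair.1 x t then some t else none)).map
      (fun t => (P (hmL (hist m t) c' x t)).toNat) else some 0, ?_, ?_, ?_⟩
  · show Computable fun q : ℕ × List Bool => (q.2[q.1]?).bind fun b => bif b then
      (ffind q.2.length (fun t => bif fe c'.unpair.1 q.1 t then some t else none)).map
        (fun t => (P (hmL (hist m t) c' q.1 t)).toNat) else some 0
    have h1 : Computable fun q : ℕ × List Bool =>
        ffind q.2.length (fun t => bif fe c'.unpair.1 q.1 t then some t else none) := by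
      apply Primrec.to_comp
      fun_prop
    have h2 : Computable fun r : ℕ × ℕ => hmL (hist m r.2) c' r.1 r.2 := by
      apply Primrec.to_comp
      fun_prop
    refine co_obind (by fun_prop) ?_
    refine co_cond (by fun_prop) ?_ (by fun_prop)
    refine co_omap (f := fun q : (ℕ × List Bool) × Bool =>
      ffind q.1.2.length (fun t => bif fe c'.unpair.1 q.1.1 t then some t else none))
      (h1.comp (co_fst co_id)) ?_
    refine co_toNat (hP.comp ?_)
    exact h2.comp (f := fun r : ℕ × ℕ => hmL (hist m r.2) c' r.1 r.2)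
      (g := fun q : ((ℕ × List Bool) × Bool) × ℕ => (q.1.1.1, q.2)) (by fun_prop)
  · intro x σ τ v hs hv
    simp only [Option.bind_eq_some_iff] at hv ⊢
    obtain ⟨b, hb, hv⟩ := hv
    have hb' : τ[x]? = some b := by
      obtain ⟨t, rfl⟩ := hs
      have hy : x < σ.length := by
        by_contra hc
        rw [List.getElem?_eq_none (by omega)] at hb
        simp at hb
      rw [List.getElem?_append_left hy]; exact hb
    refine ⟨b, hb', ?_⟩
    cases b
    · exact hv
    · simp only [cond_true, Option.map_eq_some_iff] at hv ⊢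
      obtain ⟨t, h1, h2⟩ := hv
      exact ⟨t, ffind_mono hs.length_le h1, h2⟩
  · intro x
    cases hZ : Zl m c' X Q x
    · refine ⟨x+1, ?_⟩
      simp only [pre_getElem?, Nat.lt_succ_self, if_true, Option.bind_some, hZ, cond_false]
      have : Zl m c' X P x = false := by
        rw [Bool.eq_false_iff]
        intro h
        unfold Zl at h hZ
        rw [Bool.and_eq_true] at h
        rw [h.1, hPQ _ h.2] at hZ
        simp at hZ
      rw [this]; rfl
    · have hXx : X x = true := by
        unfold Zl at hZ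
        rw [Bool.and_eq_true] at hZ
        exact hZ.1
      obtain ⟨s0, hs0⟩ := hX x
      obtain ⟨t, _, ht⟩ := fe_exists (c := c'.unpair.1) (x := x) (s := s0)
        (by rw [hs0 s0 le_rfl]; exact hXx)
      refine ⟨max (x+1) (t+1), ?_⟩
      simp only [pre_getElem?, pre_length]
      rw [if_pos (by omega), Option.bind_some, hZ, cond_true, Option.map_eq_some_iff]
      refine ⟨t, ffind_eq_some.2 ⟨t, by omega, by rw [ht]; rfl, fun k hk => ?_⟩, ?_⟩
      · have : fe c'.unpair.1 x k = false := by
          rw [Bool.eq_false_iff]; intro hc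
          have := fe_unique hc ht; omega
        rw [this]; rfl
      · rw [home_hmL ht]
        unfold Zl
        rw [hXx]; simp

include hX in
theorem NCE_piece {n : ℕ} (hc : ∀ x, (chg fun s => Xap c'.unpair.1 s x).encard ≤ n)
    {P : ℕ → Bool} (hP : Computable P) : NCE n (Zl m c' X P) := by
  refine ⟨fun x s => Xap c'.unpair.1 s x &&
    bex (s+1) (fun t => fe c'.unpair.1 x t && P (hmL (hist m t) c' x t)), ?_, ?_, ?_, ?_⟩
  · show Computable fun q : ℕ × ℕ => Xap c'.unpair.1 q.2 q.1 &&
      bex (q.2+1) (fun t => fe c'.unpair.1 q.1 t && P (hmL (hist m t) c' q.1 t))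
    have h1 : Computable fun q : ℕ × ℕ => Xap c'.unpair.1 q.2 q.1 := by
      apply Primrec.to_comp
      fun_prop
    have h2 : Computable fun r : (ℕ × ℕ) × ℕ => fe c'.unpair.1 r.1.1 r.2 := by
      apply Primrec.to_comp
      fun_prop
    have h3 : Computable fun r : (ℕ × ℕ) × ℕ => hmL (hist m r.2) c' r.1.1 r.2 := by
      apply Primrec.to_comp
      fun_prop
    exact co_and h1 (co_bex (by fun_prop) (co_and h2 (hP.comp h3)))
  · intro x; simp
  · intro x
    obtain ⟨s0, hs0⟩ := hX x
    refine ⟨s0, fun s hs => ?_⟩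
    rw [hs0 s hs]
    unfold Zl
    cases hXx : X x
    · rfl
    · obtain ⟨t, h1, ht⟩ := fe_exists (c := c'.unpair.1) (x := x) (s := s)
        (by rw [hs0 s hs]; exact hXx)
      rw [Bool.true_and, Bool.true_and]
      cases hPx : P (home m c' x)
      · rw [Bool.eq_false_iff]
        intro h
        rw [bex_iff] at h
        obtain ⟨t', _, h'⟩ := h
        rw [Bool.and_eq_true] at h'
        rw [home_hmL h'.1, hPx] at h'
        simp at h'
      · rw [bex_iff]
        exact ⟨t, by omega, by rw [ht, home_hmL ht, hPx]; rfl⟩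
  · intro x
    refine (Set.encard_le_encard ?_).trans (hc x)
    intro s hs hcon
    apply hs
    simp only at hcon ⊢
    rw [← hcon]
    cases hXs : Xap c'.unpair.1 s x
    · rfl
    · obtain ⟨t, h1, ht⟩ := fe_exists hXs
      rw [Bool.true_and, Bool.true_and]
      rw [bex_succ (s+1)]
      have : fe c'.unpair.1 x (s+1) = false := by
        rw [Bool.eq_false_iff]; intro h
        have := fe_unique h ht; omega
      rw [this]; simp

end

theorem TR_or (A B : ℕ → Bool) : TR (fun x => A x || B x) (join A B) := by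
  rw [TR_iff]
  refine ⟨fun y σ => (σ[2*y]?).bind fun a => (σ[2*y+1]?).map fun b => (a || b).toNat, ?_, ?_, ?_⟩
  · show Computable fun q : ℕ × List Bool => (q.2[2*q.1]?).bind fun a => (q.2[2*q.1+1]?).map
      fun b => (a || b).toNat
    fun_prop
  · intro y σ τ v hs hv
    simp only [Option.bind_eq_some_iff, Option.map_eq_some_iff] at hv ⊢
    obtain ⟨a, ha, b, hb, rfl⟩ := hv
    obtain ⟨t, rfl⟩ := hs
    have hy : 2 * y + 1 < σ.length := by
      by_contra hc
      rw [List.getElem?_eq_none (l := σ) (i := 2*y+1) (by omega)] at hb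
      simp at hb
    exact ⟨a, by rw [List.getElem?_append_left (by omega)]; exact ha, b,
      by rw [List.getElem?_append_left hy]; exact hb, rfl⟩
  · intro y
    refine ⟨2*y+2, ?_⟩
    show ((pre (join A B) (2*y+2))[2*y]?).bind _ = _
    rw [pre_getElem?, if_pos (by omega), join_even, pre_getElem?, if_pos (by omega), join_odd]
    rfl

theorem join_mono {A A' B B' : ℕ → Bool} (h1 : TR A A') (h2 : TR B B') :
    TR (join A B) (join A' B') :=
  TR_join (h1.trans (TR_join_left _ _)) (h2.trans (TR_join_right _ _))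

/-- The interval theorem for sets. -/
theorem interval_sets (m : ℕ) {n : ℕ} {B C : ℕ → Bool} (hB : NCE n B) (hBM : TR B (MSl m 1))
    (hC : NCE n C) (hBC : TR B C) (hCB : ¬ TR C B) :
    ∃ Z : Finset ℕ → ℕ → Bool, (∀ S, NCE n (Z S)) ∧ (∀ S, TR (Z S) C) ∧ (∀ S, TR B (Z S)) ∧
      (∀ S, ¬ TR C (Z S)) ∧ (∀ S T, TR (Z S) (Z T) ↔ S ⊆ T) ∧ TR (Z ∅) B := by
  classical
  obtain ⟨k, g, X, hk, hg, hXC, hXB, hLB⟩ := lachlan_chain hC hCB
  obtain ⟨ψ, hψ⟩ := exists_psi hg hLB
  obtain ⟨c, hc1, hc2, hc3⟩ := exists_index hg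
  obtain ⟨gB, hgB⟩ := hB
  obtain ⟨β, hβ1, _, _⟩ := exists_index hgB
  obtain ⟨γ, hγ⟩ := TR_iff_U.1 hBM
  obtain ⟨c', hc'⟩ : ∃ c', c' = Nat.pair c (Nat.pair ψ (Nat.pair β γ)) := ⟨_, rfl⟩
  have h1 : c'.unpair.1 = c := by rw [hc']; simp
  have h2 : c'.unpair.2.unpair.1 = ψ := by rw [hc']; simp
  have h3 : c'.unpair.2.unpair.2.unpair.1 = β := by rw [hc']; simp
  have h4 : c'.unpair.2.unpair.2.unpair.2 = γ := by rw [hc']; simp
  have hψ' : ∀ x, (∃ s, Xap c s x = true) → ∃ n, U ψ x (pre B n) = some (X x).toNat := by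
    rintro x ⟨s, hs⟩
    exact hψ x (hc3 s x hs)
  have hsplit : ∀ i, ¬ TR X (join B (Yl m c' X i)) := fun i =>
    split_not_TR c' h1 h2 h3 h4 hc1 hβ1 hγ hψ' hXB i
  have hX' : ∀ x, ∃ s0, ∀ s ≥ s0, Xap c'.unpair.1 s x = X x := by rw [h1]; exact hc1
  have hchg : ∀ x, (chg fun s => Xap c'.unpair.1 s x).encard ≤ k := by rw [h1]; exact hc2
  have hcomp : ∀ S : Finset ℕ, Computable fun i => decide (i ∈ S) := by
    intro S
    induction S using Finset.induction_on with
    | empty => simpa using Computable.const false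
    | insert a S ha ih =>
      have : (fun i => decide (i ∈ insert a S)) = fun i => decide (i = a) || decide (i ∈ S) := by
        funext i
        simp [Finset.mem_insert, Bool.decide_or]
      rw [this]
      exact co_or (by fun_prop) ih
  have hXtop : ∀ S : Finset ℕ, TR (Zl m c' X fun i => decide (i ∈ S)) X := by
    intro S
    have := TR_piece (m := m) (c' := c') hX' (P := fun i => decide (i ∈ S)) (Q := fun _ => true)
      (hcomp S) (fun _ _ => rfl)
    rwa [Zl_true] at this
  have hsub : ∀ S T : Finset ℕ, S ⊆ T →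
      TR (Zl m c' X fun i => decide (i ∈ S)) (Zl m c' X fun i => decide (i ∈ T)) := by
    intro S T hST
    refine TR_piece hX' (hcomp S) (fun i hi => ?_)
    rw [decide_eq_true_eq] at hi ⊢
    exact hST hi
  have hY : ∀ (S : Finset ℕ) (i : ℕ), i ∉ S →
      TR (Zl m c' X fun i => decide (i ∈ S)) (Yl m c' X i) := by
    intro S i hi
    rw [Yl_eq]
    refine TR_piece hX' (hcomp S) (fun k hk => ?_)
    rw [decide_eq_true_eq] at hk
    have : k ≠ i := fun h => hi (h ▸ hk)
    simp [this]
  have hXi : ∀ i, TR X (join (Zl m c' X fun k => decide (k ∈ ({i} : Finset ℕ))) (Yl m c' X i)) := by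
    intro i
    have := TR_or (Zl m c' X fun k => decide (k ∈ ({i} : Finset ℕ))) (Yl m c' X i)
    have h5 : (fun x => Zl m c' X (fun k => decide (k ∈ ({i} : Finset ℕ))) x || Yl m c' X i x) = X := by
      funext x
      unfold Zl Yl
      cases X x <;> by_cases h : home m c' x = i <;> simp [h]
    rwa [h5] at this
  have hgBn : NCE n B := ⟨gB, hgB⟩
  refine ⟨fun S => join B (Zl m c' X fun i => decide (i ∈ S)), ?_, ?_, ?_, ?_, ?_, ?_⟩
  · intro S
    exact NCE_join hgBn ((NCE_piece hX' hchg (hcomp S)).mono hk)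
  · intro S
    exact TR_join hBC ((hXtop S).trans hXC)
  · intro S
    exact TR_join_left _ _
  · intro S h
    obtain ⟨i, hi⟩ := Infinite.exists_notMem_finset S
    exact hsplit i ((hXC.trans h).trans (join_mono (TR.refl B) (hY S i hi)))
  · intro S T
    constructor
    · intro h i hi
      by_contra hiT
      apply hsplit i
      have h5 : TR (Zl m c' X fun k => decide (k ∈ ({i} : Finset ℕ)))
          (Zl m c' X fun k => decide (k ∈ S)) := hsub _ _ (by simpa using hi)
      have h6 : TR (Zl m c' X fun k => decide (k ∈ ({i} : Finset ℕ))) (join B (Yl m c' X i)) :=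
        (h5.trans (TR_join_right B _)).trans (h.trans (join_mono (TR.refl B) (hY T i hiT)))
      exact (hXi i).trans (TR_join h6 (TR_join_right _ _))
    · intro h
      exact join_mono (TR.refl B) (hsub S T h)
  · refine TR_join (TR.refl B) ?_
    have : (Zl m c' X fun i => decide (i ∈ (∅ : Finset ℕ))) = fun _ => false := by
      funext x; simp [Zl]
    rw [this]
    exact TR_of_computable (Computable.const false) B

theorem NCE_MSl (m k : ℕ) : NCE (m+1) (MSl m k) := by
  refine ⟨fun x s => MSL (hist m s) s k x, ?_, ?_, ?_, ?_⟩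
  · apply Primrec.to_comp
    fun_prop
  · intro x
    show MS (al (hist m 0)) 0 k x = false
    unfold MS M
    simp
  · intro x
    obtain ⟨s0, hs0⟩ := MS_EC m k x
    exact ⟨s0, fun s hs => by rw [← hs0 s hs]; exact MS_congr (fun t ht => al_hist ht)⟩
  · intro x
    refine (Set.encard_le_encard ?_).trans (M_chg m x)
    intro s hs hcon
    apply hs
    simp only at hcon ⊢
    have h1 : MSL (hist m s) s k x = MS (act m) s k x := MS_congr (fun t ht => al_hist ht)
    have h2 : MSL (hist m (s+1)) (s+1) k x = MS (act m) (s+1) k x :=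
      MS_congr (fun t ht => al_hist ht)
    rw [h1, h2]
    unfold MS
    rw [hcon]

theorem not_mce (m : ℕ) {W : ℕ → Bool} (hW : NCE m W) (h1 : TR (MSl m 0) W)
    (h2 : TR W (MSl m 0)) : False := by
  obtain ⟨g, hg⟩ := hW
  obtain ⟨w, hw1, hw2, _⟩ := exists_index hg
  obtain ⟨φ, hφ⟩ := TR_iff_U.1 h1
  obtain ⟨ψ, hψ⟩ := TR_iff_U.1 h2
  exact no_m_ce m hw1 hw2 hφ hψ

theorem TR_MSl (m k : ℕ) : TR (MSl m k) (MSl m 1) := by
  rw [TR_iff]
  refine ⟨fun y σ => (σ[y]?).map fun b => (b && sel k (colm y)).toNat, ?_, ?_, ?_⟩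
  · show Computable fun q : ℕ × List Bool => (q.2[q.1]?).map fun b => (b && sel k (colm q.1)).toNat
    apply Primrec.to_comp
    fun_prop
  · intro y σ τ v hs hv
    simp only [Option.map_eq_some_iff] at hv ⊢
    obtain ⟨b, hb, rfl⟩ := hv
    obtain ⟨t, rfl⟩ := hs
    have hy : y < σ.length := by
      by_contra hc
      rw [List.getElem?_eq_none (by omega)] at hb
      simp at hb
    exact ⟨b, by rw [List.getElem?_append_left hy]; exact hb, rfl⟩
  · intro y
    refine ⟨y+1, ?_⟩
    show ((pre (MSl m 1) (y+1))[y]?).map _ = _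
    rw [pre_getElem?, if_pos (by omega)]
    unfold MSl
    have : sel 1 (colm y) = true := by simp [sel]
    rw [this]
    simp [Bool.and_assoc]

end DegB
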