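import Pool.Agent.Lib_helper53.Deg.Engine

/-!
# The run of the construction; finite injury
-/

namespace DegB

/-- the next action after the history `h` -/
def nxt (m : ℕ) (h : List ℕ) : ℕ :=
  (ffind (h.length+1) (fun j => bif wtL m h h.length j then some j else none)).getD
    (Nat.pair 3 h.length)

/-- history of length `s` -/
def hist (m : ℕ) (s : ℕ) : List ℕ := Nat.rec [] (fun _ h => h ++ [nxt m h]) s

/-- the requirement acting at stage `s` -/
def act (m s : ℕ) : ℕ := nxt m (hist m s)

@[simp] theorem hist_zero (m : ℕ) : hist m 0 = [] := rfl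
theorem hist_succ (m s : ℕ) : hist m (s+1) = hist m s ++ [act m s] := rfl

@[simp] theorem hist_length (m s : ℕ) : (hist m s).length = s := by
  induction s with
  | zero => rfl
  | succ s ih => rw [hist_succ, List.length_append, ih]; rfl

theorem hist_getElem? (m s t : ℕ) : (hist m s)[t]? = if t < s then some (act m t) else none := by
  induction s with
  | zero => simp
  | succ s ih =>
    rw [hist_succ]
    by_cases h : t < s
    · rw [List.getElem?_append_left (by simpa using h), ih, if_pos h, if_pos (by omega)]
    · rw [List.getElem?_append_right (by simpa using Nat.le_of_not_lt h)]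
      by_cases h' : t = s
      · subst h'; simp
      · rw [if_neg (by omega), List.getElem?_eq_none]
        simp; omega

theorem al_hist {m s t : ℕ} (h : t < s) : al (hist m s) t = act m t := by
  unfold al
  rw [List.getD_eq_getElem?_getD, hist_getElem?, if_pos h]; rfl

theorem pr_nxt (m : ℕ) : Primrec (nxt m) := by
  unfold nxt
  fun_prop

theorem pr_hist (m : ℕ) : Primrec (hist m) := by
  unfold hist
  refine Primrec.nat_rec₁ (f := fun (_ : ℕ) (h : List ℕ) => h ++ [nxt m h]) [] ?_
  show Primrec fun q : ℕ × List ℕ => q.2 ++ [nxt m q.2]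
  have := pr_nxt m
  fun_prop

theorem pr_act (m : ℕ) : Primrec (act m) := (pr_nxt m).comp (pr_hist m)

theorem lt_dummy (s : ℕ) : s < Nat.pair 3 s := by
  unfold Nat.pair
  split_ifs with h
  · nlinarith
  · omega

theorem act_spec (m s : ℕ) :
    (act m s ≤ s ∧ wt m (act m) s (act m s) = true ∧ ∀ j < act m s, wt m (act m) s j = false) ∨
    (act m s = Nat.pair 3 s ∧ ∀ j ≤ s, wt m (act m) s j = false) := by
  have hw : ∀ j, wtL m (hist m s) s j = wt m (act m) s j := fun j =>
    wt_congr (fun t ht => al_hist ht)
  have hdef : act m s = (ffind (s+1) (fun j => bif wt m (act m) s j then some j else none)).getD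
      (Nat.pair 3 s) := by
    show nxt m (hist m s) = _
    unfold nxt
    rw [hist_length]
    congr 1
    exact ffind_congr fun k hk => by rw [hw]
  rcases hf : ffind (s+1) (fun j => bif wt m (act m) s j then some j else none) with _ | v
  · right
    rw [hf] at hdef
    refine ⟨hdef, fun j hj => ?_⟩
    have := ffind_eq_none.1 hf j (by omega)
    cases h : wt m (act m) s j
    · rfl
    · rw [h] at this; simp at this
  · left
    rw [hf] at hdef
    obtain ⟨k, hk, h1, h2⟩ := ffind_eq_some.1 hf
    have hwk : wt m (act m) s k = true := by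
      cases h : wt m (act m) s k
      · rw [h] at h1; simp at h1
      · rfl
    rw [hwk] at h1
    have hkv : k = v := by simpa using h1
    subst hkv
    have hd : act m s = k := hdef
    rw [hd]
    refine ⟨by omega, hwk, fun j hj => ?_⟩
    have := h2 j hj
    cases h : wt m (act m) s j
    · rfl
    · rw [h] at this; simp at this

theorem act_real {m s j : ℕ} (h : act m s = j) (hj : j ≤ s) : wt m (act m) s j = true := by
  rcases act_spec m s with h' | h'
  · rw [← h]; exact h'.2.1
  · have := lt_dummy s; omega

theorem act_le_of_wt {m s j : ℕ} (h : wt m (act m) s j = true) (hj : j ≤ s) : act m s ≤ j := by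
  rcases act_spec m s with h' | h'
  · by_contra hc
    have := h'.2.2 j (by omega)
    rw [this] at h; simp at h
  · rw [h'.2 j hj] at h; simp at h

/-! ### starts, counting -/

section general
variable {a : ℕ → ℕ}

theorem alive_iff {j t s : ℕ} : alive a j t s = true ↔ ∀ t' < s, t ≤ t' → j ≤ a t' := by
  unfold alive
  rw [ball_iff]
  constructor
  · intro h t' h1 h2
    have := h t' h1
    rw [Bool.or_eq_true, decide_eq_true_eq, decide_eq_true_eq] at this
    omega
  · intro h t' h1
    rw [Bool.or_eq_true, decide_eq_true_eq, decide_eq_true_eq]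
    by_cases h2 : t' < t
    · exact Or.inl h2
    · exact Or.inr (h t' h1 (by omega))

theorem legit_iff {j t : ℕ} : legit a j t = true ↔ j ≤ t ∧ (t = j ∨ a (t-1) < j) := by
  unfold legit
  simp

theorem start_unique {j t t' s : ℕ} (h1 : legit a j t = true) (h2 : legit a j t' = true)
    (h3 : alive a j t s = true) (h4 : alive a j t' s = true) (h5 : t ≤ s) (h6 : t' ≤ s) :
    t = t' := by
  rw [legit_iff] at h1 h2
  rw [alive_iff] at h3 h4
  rcases Nat.lt_trichotomy t t' with h | h | h
  · rcases h2.2 with h' | h'
    · omega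
    · have := h3 (t'-1) (by omega) (by omega); omega
  · exact h
  · rcases h1.2 with h' | h'
    · omega
    · have := h4 (t-1) (by omega) (by omega); omega

theorem start_exists {j s : ℕ} (h : j ≤ s) : ∃ t ≤ s, legit a j t = true ∧ alive a j t s = true := by
  induction s with
  | zero =>
    have : j = 0 := by omega
    subst this
    exact ⟨0, le_rfl, by rw [legit_iff]; simp, by rw [alive_iff]; intro t' h'; omega⟩
  | succ s ih =>
    rcases Nat.lt_or_ge s j with hj | hj
    · have : j = s + 1 := by omega
      subst this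
      exact ⟨s+1, le_rfl, by rw [legit_iff]; simp, by rw [alive_iff]; intro t' h' h''; omega⟩
    · by_cases ha : j ≤ a s
      · obtain ⟨t, h1, h2, h3⟩ := ih hj
        refine ⟨t, by omega, h2, ?_⟩
        rw [alive_iff] at h3 ⊢
        intro t' h4 h5
        rcases Nat.lt_succ_iff_lt_or_eq.1 h4 with h6 | h6
        · exact h3 t' h6 h5
        · subst h6; exact ha
      · refine ⟨s+1, le_rfl, ?_, ?_⟩
        · rw [legit_iff]
          refine ⟨by omega, Or.inr ?_⟩
          simp; omega
        · rw [alive_iff]; intro t' h' h''; omega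

theorem cnt_succ (j t s : ℕ) : cnt a j t (s+1) = cnt a j t s +
    (decide (t ≤ s) && (decide (a s = j) && alive a j t s)).toNat := rfl

theorem cnt_le_succ (j t s : ℕ) : cnt a j t s ≤ cnt a j t (s+1) := by
  rw [cnt_succ]; omega

theorem cnt_mono {j t s s' : ℕ} (h : s ≤ s') : cnt a j t s ≤ cnt a j t s' :=
  monotone_nat_of_le_succ (cnt_le_succ j t) h

theorem cnt_zero_of_le {j t s : ℕ} (h : s ≤ t) : cnt a j t s = 0 := by
  induction s with
  | zero => rfl
  | succ s ih =>
    rw [cnt_succ, ih (by omega)]
    have : decide (t ≤ s) = false := by simp; omega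
    rw [this]; rfl

theorem cnt_act {j t s : ℕ} (h1 : t ≤ s) (h2 : a s = j) (h3 : alive a j t s = true) :
    cnt a j t (s+1) = cnt a j t s + 1 := by
  rw [cnt_succ, h3]
  simp [h1, h2]

theorem cnt_not_act {j t s : ℕ} (h : ¬ (t ≤ s ∧ a s = j ∧ alive a j t s = true)) :
    cnt a j t (s+1) = cnt a j t s := by
  rw [cnt_succ]
  have : (decide (t ≤ s) && (decide (a s = j) && alive a j t s)) = false := by
    rw [Bool.eq_false_iff]
    intro hc
    rw [Bool.and_eq_true, Bool.and_eq_true, decide_eq_true_eq, decide_eq_true_eq] at hc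
    exact h hc
  rw [this]; rfl

theorem alive_mono {j t s s' : ℕ} (h : s ≤ s') (ha : alive a j t s' = true) :
    alive a j t s = true := by
  rw [alive_iff] at ha ⊢
  exact fun t' h1 h2 => ha t' (by omega) h2

end general

theorem wt_spec {m : ℕ} {a : ℕ → ℕ} {s j : ℕ} (h : wt m a s j = true) :
    ∃ t ≤ s, j ≤ t ∧ legit a j t = true ∧ alive a j t s = true ∧ cnt a j t s ≤ m ∧
      ((j.unpair.1 = 0 ∧ wantR a s j (Nat.pair j t) = true) ∨
       (j.unpair.1 = 1 ∧ cnt a j t s = 0 ∧ wantF a s j (Nat.pair j t) = true) ∨
       (j.unpair.1 = 2 ∧ cnt a j t s = 0 ∧ wantN a s j.unpair.2 = true)) := by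
  unfold wt at h
  rw [bex_iff] at h
  obtain ⟨t, ht, h⟩ := h
  rw [Bool.and_eq_true, Bool.and_eq_true] at h
  obtain ⟨h1, h2, h3⟩ := h
  refine ⟨t, by omega, (legit_iff.1 h1).1, h1, h2, ?_⟩
  by_cases h0 : j.unpair.1 = 0
  · simp only [h0, decide_true, cond_true, Bool.and_eq_true, decide_eq_true_eq] at h3
    exact ⟨h3.1, Or.inl ⟨h0, h3.2⟩⟩
  · by_cases h4 : j.unpair.1 = 1
    · simp only [h4, decide_true, cond_true, Bool.and_eq_true, decide_eq_true_eq] at h3
      simp at h3
      exact ⟨by omega, Or.inr (Or.inl ⟨h4, h3.1, h3.2⟩)⟩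
    · by_cases h5 : j.unpair.1 = 2
      · simp only [h5, decide_true, cond_true, Bool.and_eq_true, decide_eq_true_eq] at h3
        simp at h3
        exact ⟨by omega, Or.inr (Or.inr ⟨h5, h3.1, h3.2⟩)⟩
      · simp [h0, h4, h5] at h3

theorem wt_of {m : ℕ} {a : ℕ → ℕ} {s j t : ℕ} (ht : t ≤ s) (h1 : legit a j t = true)
    (h2 : alive a j t s = true)
    (h : (j.unpair.1 = 0 ∧ cnt a j t s ≤ m ∧ wantR a s j (Nat.pair j t) = true) ∨
       (j.unpair.1 = 1 ∧ cnt a j t s = 0 ∧ wantF a s j (Nat.pair j t) = true) ∨
       (j.unpair.1 = 2 ∧ cnt a j t s = 0 ∧ wantN a s j.unpair.2 = true)) : wt m a s j = true := by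
  unfold wt
  rw [bex_iff]
  refine ⟨t, by omega, ?_⟩
  rw [Bool.and_eq_true, Bool.and_eq_true]
  refine ⟨h1, h2, ?_⟩
  rcases h with ⟨h3, h4, h5⟩ | ⟨h3, h4, h5⟩ | ⟨h3, h4, h5⟩
  · simp [h3, h4, h5]
  · simp [h3, h4, h5]
  · simp [h3, h4, h5]

/-- finite injury -/
theorem fin_inj (m j : ℕ) : ∃ s0, ∀ s ≥ s0, j < act m s := by
  induction j using Nat.strong_induction_on with
  | _ j ih =>
    -- a bound for all smaller requirements
    have hb : ∃ s0, ∀ s ≥ s0, j ≤ act m s := by
      have : ∀ k ≤ j, ∃ s0, ∀ s ≥ s0, k ≤ act m s := by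
        intro k
        induction k with
        | zero => intro _; exact ⟨0, fun s _ => Nat.zero_le _⟩
        | succ k ihk =>
          intro hk
          obtain ⟨s1, h1⟩ := ihk (by omega)
          obtain ⟨s2, h2⟩ := ih k (by omega)
          exact ⟨max s1 s2, fun s hs => by have := h2 s (by omega); omega⟩
      exact this j le_rfl
    obtain ⟨s0, hs0⟩ := hb
    by_contra hcon
    push Not at hcon
    -- infinitely many stages at which `j` acts
    have hinf : ∀ N, ∃ s ≥ N, act m s = j := by
      intro N
      obtain ⟨s, h1, h2⟩ := hcon (max N s0)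
      have := hs0 s (by omega)
      exact ⟨s, by omega, by omega⟩
    obtain ⟨t, ht, hl, ha⟩ := start_exists (a := act m) (j := j) (s := max s0 j) (by omega)
    have halive : ∀ s ≥ max s0 j, alive (act m) j t s = true := by
      intro s hs
      rw [alive_iff] at ha ⊢
      intro t' h1 h2
      by_cases h3 : t' < max s0 j
      · exact ha t' h3 h2
      · exact hs0 t' (by omega)
    have hbig : ∀ k, ∃ s ≥ max s0 j, k ≤ cnt (act m) j t s := by
      intro k
      induction k with
      | zero => exact ⟨max s0 j, le_rfl, Nat.zero_le _⟩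
      | succ k ihk =>
        obtain ⟨s, h1, h2⟩ := ihk
        obtain ⟨s', h3, h4⟩ := hinf s
        refine ⟨s'+1, by omega, ?_⟩
        rw [cnt_act (by omega) h4 (halive s' (by omega))]
        have := cnt_mono (a := act m) (j := j) (t := t) h3
        omega
    obtain ⟨s, h1, h2⟩ := hbig (m+1)
    obtain ⟨s', h3, h4⟩ := hinf s
    have hreal := act_real h4 (by omega)
    obtain ⟨t', h5, _, h6, h7, h8, _⟩ := wt_spec hreal
    have : t' = t := start_unique h6 hl h7 (halive s' (by omega)) h5 (by omega)
    subst this
    have := cnt_mono (a := act m) (j := j) (t := t') h3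
    omega

theorem cnt_le (m : ℕ) {j t : ℕ} (hl : legit (act m) j t = true) (s : ℕ) :
    cnt (act m) j t s ≤ m + 1 := by
  induction s with
  | zero => exact Nat.zero_le _
  | succ s ih =>
    by_cases h : t ≤ s ∧ act m s = j ∧ alive (act m) j t s = true
    · rw [cnt_act h.1 h.2.1 h.2.2]
      have hjt := (legit_iff.1 hl).1
      have hreal := act_real h.2.1 (by omega)
      obtain ⟨t', h5, _, h6, h7, h8, _⟩ := wt_spec hreal
      have : t' = t := start_unique h6 hl h7 h.2.2 h5 h.1
      subst this
      omega
    · rw [cnt_not_act h]; exact ih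

theorem cnt_le_one (m : ℕ) {j t : ℕ} (hl : legit (act m) j t = true) (hj : j.unpair.1 = 1) (s : ℕ) :
    cnt (act m) j t s ≤ 1 := by
  induction s with
  | zero => exact Nat.zero_le _
  | succ s ih =>
    by_cases h : t ≤ s ∧ act m s = j ∧ alive (act m) j t s = true
    · rw [cnt_act h.1 h.2.1 h.2.2]
      have hjt := (legit_iff.1 hl).1
      have hreal := act_real h.2.1 (by omega)
      obtain ⟨t', h5, _, h6, h7, h8, h9⟩ := wt_spec hreal
      have : t' = t := start_unique h6 hl h7 h.2.2 h5 h.1
      subst this
      rcases h9 with h9 | h9 | h9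
      · omega
      · omega
      · omega
    · rw [cnt_not_act h]; exact ih

/-- eventually constant -/
def EC (f : ℕ → Bool) (b : Bool) : Prop := ∃ s0, ∀ s ≥ s0, f s = b

theorem cnt_const (m j t : ℕ) : ∃ s0, ∀ s ≥ s0, cnt (act m) j t s = cnt (act m) j t s0 := by
  obtain ⟨s0, hs0⟩ := fin_inj m j
  refine ⟨s0, fun s hs => ?_⟩
  induction s, hs using Nat.le_induction with
  | base => rfl
  | succ s hs ih =>
    rw [cnt_not_act, ih]
    rintro ⟨_, h2, _⟩
    have := hs0 s hs
    omega

theorem M_EC (m x : ℕ) : ∃ b, EC (fun s => M (act m) s x) b := by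
  obtain ⟨s0, hs0⟩ := cnt_const m x.unpair.1 x.unpair.2
  refine ⟨legit (act m) x.unpair.1 x.unpair.2 &&
    decide (cnt (act m) x.unpair.1 x.unpair.2 s0 % 2 = 1), max s0 (x.unpair.2+1), fun s hs => ?_⟩
  show M (act m) s x = _
  unfold M
  rw [hs0 s (by omega)]
  have : decide (x.unpair.2 < s) = true := by simp; omega
  rw [this, Bool.true_and]

open Classical in
/-- the limit of the master set -/
noncomputable def Ml (m x : ℕ) : Bool := (M_EC m x).choose

theorem Ml_spec (m x : ℕ) : ∃ s0, ∀ s ≥ s0, M (act m) s x = Ml m x := (M_EC m x).choose_spec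

/-- preservation -/
theorem pres {m s x : ℕ} (h : ∀ t ≥ s, act m s ≤ act m t) (hx : x < s)
    (hne : ∀ t0, legit (act m) (act m s) t0 = true → alive (act m) (act m s) t0 s = true →
      t0 ≤ s → x ≠ Nat.pair (act m s) t0) : ∀ t ≥ s, M (act m) t x = M (act m) s x := by
  have hj' : x.unpair.1 ≤ x := Nat.unpair_left_le x
  have ht' : x.unpair.2 ≤ x := Nat.unpair_right_le x
  by_cases hl : legit (act m) x.unpair.1 x.unpair.2 = true
  swap
  · intro t _
    unfold M
    rw [Bool.not_eq_true] at hl
    rw [hl]; rfl
  have key : ∀ t ≥ s, cnt (act m) x.unpair.1 x.unpair.2 t = cnt (act m) x.unpair.1 x.unpair.2 s := by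
    intro t ht
    induction t, ht using Nat.le_induction with
    | base => rfl
    | succ t ht ih =>
      rw [cnt_not_act, ih]
      rintro ⟨h1, h2, h3⟩
      have h4 := h t ht
      rw [h2] at h4
      rcases Nat.lt_or_eq_of_le h4 with h5 | h5
      · -- lower priority: dead after stage s
        rcases Nat.lt_or_eq_of_le ht with h6 | h6
        · have := alive_iff.1 h3 s h6 (by omega)
          omega
        · rw [← h6] at h2; omega
      · -- same requirement, older incarnation
        rw [← h5] at hl h3
        have h7 : alive (act m) (act m s) x.unpair.2 s = true := alive_mono ht h3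
        apply hne x.unpair.2 hl h7 (by omega)
        rw [h5, Nat.pair_unpair]
  intro t ht
  unfold M
  rw [key t ht]
  have e1 : decide (x.unpair.2 < t) = true := by simp; omega
  have e2 : decide (x.unpair.2 < s) = true := by simp; omega
  rw [e1, e2]

theorem M_chg (m x : ℕ) : (chg fun s => M (act m) s x).encard ≤ (m + 1 : ℕ) := by
  by_cases hl : legit (act m) x.unpair.1 x.unpair.2 = true
  swap
  · have : chg (fun s => M (act m) s x) = ∅ := by
      ext s
      simp only [chg, Set.mem_ofPred_eq, Set.mem_empty_iff_false, iff_false, not_not]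
      unfold M
      rw [Bool.not_eq_true] at hl
      rw [hl]; rfl
    rw [this]; simp
  · have hstep : ∀ s, s ∈ chg (fun s => M (act m) s x) →
        cnt (act m) x.unpair.1 x.unpair.2 (s+1) = cnt (act m) x.unpair.1 x.unpair.2 s + 1 := by
      intro s hs
      by_contra hc
      apply hs
      have hcc : cnt (act m) x.unpair.1 x.unpair.2 (s+1) = cnt (act m) x.unpair.1 x.unpair.2 s := by
        by_cases h : x.unpair.2 ≤ s ∧ act m s = x.unpair.1 ∧ alive (act m) x.unpair.1 x.unpair.2 s = true
        · exact absurd (cnt_act h.1 h.2.1 h.2.2) hc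
        · exact cnt_not_act h
      show M (act m) s x = M (act m) (s+1) x
      unfold M
      rcases Nat.lt_or_ge x.unpair.2 s with h1 | h1
      · have e1 : decide (x.unpair.2 < s) = true := by simpa using h1
        have e2 : decide (x.unpair.2 < s+1) = true := by simp; omega
        rw [hcc, e1, e2]
      · have e3 : cnt (act m) x.unpair.1 x.unpair.2 s = 0 := cnt_zero_of_le h1
        rw [hcc, e3]; simp
    have hinj : Set.InjOn (fun s => cnt (act m) x.unpair.1 x.unpair.2 s)
        (chg fun s => M (act m) s x) := by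
      intro s hs s' hs' heq
      simp only at heq
      rcases Nat.lt_trichotomy s s' with h | h | h
      · have h1 := hstep s hs
        have h2 := cnt_mono (a := act m) (j := x.unpair.1) (t := x.unpair.2) (show s+1 ≤ s' by omega)
        omega
      · exact h
      · have h1 := hstep s' hs'
        have h2 := cnt_mono (a := act m) (j := x.unpair.1) (t := x.unpair.2) (show s'+1 ≤ s by omega)
        omega
    have hmaps : Set.MapsTo (fun s => cnt (act m) x.unpair.1 x.unpair.2 s)
        (chg fun s => M (act m) s x) (Set.Iio (m+1)) := by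
      intro s hs
      have h1 := hstep s hs
      have h2 := cnt_le m hl (s+1)
      simp only [Set.mem_Iio]; omega
    calc (chg fun s => M (act m) s x).encard ≤ (Set.Iio (m+1)).encard :=
          Set.encard_le_encard_of_injOn hmaps hinj
      _ = (m + 1 : ℕ) := by
          rw [← Finset.coe_range, Set.encard_coe_eq_coe_finsetCard, Finset.card_range]

end DegB
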